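import Pool.Agent.MP_5beb1e_gt.RealQuotient

/-! Spaces with infinitely many clopen sets, and atoms when there are finitely many. -/

open Set Topology

namespace Pool.Agent.MP_5beb1e_gt

universe u v

/-- A space with infinitely many clopen sets has a continuous real function with countably
infinite range. -/
theorem exists_countable_range {X : Type u} [TopologicalSpace X]
    (hinf : {D : Set X | IsClopen D}.Infinite) :
    ∃ g : X → ℝ, Continuous g ∧ (range g).Infinite ∧ (range g).Countable := by
  classical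
  let Big : Set X → Prop := fun A => IsClopen A ∧ {B : Set X | IsClopen B ∧ B ⊆ A}.Infinite
  have step : ∀ A, Big A → ∃ A', Big A' ∧ A' ⊆ A ∧ (A \ A').Nonempty := by
    rintro A ⟨hA, hAinf⟩
    obtain ⟨B, ⟨hB, hBA⟩, hB2⟩ := hAinf.exists_notMem_finite
      (Set.toFinite ({∅, A} : Set (Set X)))
    simp only [mem_insert_iff, mem_singleton_iff, not_or] at hB2
    by_cases h : {D : Set X | IsClopen D ∧ D ⊆ B}.Infinite
    · refine ⟨B, ⟨hB, h⟩, hBA, ?_⟩
      rw [sdiff_nonempty]
      intro hAB
      exact hB2.2 (subset_antisymm hBA hAB)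
    · refine ⟨A \ B, ⟨hA.diff hB, ?_⟩, sdiff_subset, ?_⟩
      · intro hfin
        rw [not_infinite] at h
        apply hAinf
        refine (h.image2 (fun D E => D ∪ E) hfin).subset ?_
        rintro D ⟨hD, hDA⟩
        refine ⟨D ∩ B, ⟨hD.inter hB, inter_subset_right⟩, D \ B,
          ⟨hD.diff hB, sdiff_subset_sdiff_left hDA⟩, ?_⟩
        exact inter_union_sdiff D B
      · have h1 : A \ (A \ B) = B := sdiff_sdiff_cancel_left hBA
        rw [h1]
        exact nonempty_iff_ne_empty.mpr hB2.1
  choose! next n1 n2 n3 using step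
  let A : ℕ → Set X := fun n => next^[n] univ
  have hA0 : A 0 = univ := rfl
  have hAs : ∀ n, A (n + 1) = next (A n) := fun n => Function.iterate_succ_apply' _ _ _
  have hbig : ∀ n, Big (A n) := by
    intro n
    induction n with
    | zero =>
      refine ⟨isClopen_univ, ?_⟩
      have : {B : Set X | IsClopen B ∧ B ⊆ A 0} = {B : Set X | IsClopen B} := by
        ext B
        simp [hA0]
      rw [this]
      exact hinf
    | succ n ih => rw [hAs]; exact n1 _ ih
  have hsub : ∀ n, A (n + 1) ⊆ A n := by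
    intro n; rw [hAs]; exact n2 _ (hbig n)
  have hne : ∀ n, (A n \ A (n + 1)).Nonempty := by
    intro n; rw [hAs]; exact n3 _ (hbig n)
  have hanti : Antitone A := antitone_nat_of_succ_le hsub
  let g : X → ℝ := fun x => if h : ∃ n, x ∉ A (n + 1) then 1 / ((Nat.find h : ℝ) + 1) else 0
  have hval : ∀ n, ∀ x ∈ A n \ A (n + 1), g x = 1 / ((n : ℝ) + 1) := by
    rintro n x ⟨h1, h2⟩
    have h : ∃ n, x ∉ A (n + 1) := ⟨n, h2⟩
    have hf : Nat.find h = n := by
      rw [Nat.find_eq_iff]
      refine ⟨h2, fun k hk => ?_⟩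
      rw [not_not]
      exact hanti (Nat.succ_le_of_lt hk) h1
    simp only [g, dif_pos h, hf]
  have hval0 : ∀ x, (∀ n, x ∈ A (n + 1)) → g x = 0 := by
    intro x hx
    have h : ¬ ∃ n, x ∉ A (n + 1) := by push Not; exact hx
    simp only [g, dif_neg h]
  have hcase : ∀ x, (∀ n, x ∈ A (n + 1)) ∨ ∃ n, x ∈ A n \ A (n + 1) := by
    intro x
    by_cases h : ∃ n, x ∉ A (n + 1)
    · right
      refine ⟨Nat.find h, ?_, Nat.find_spec h⟩
      rcases Nat.eq_zero_or_pos (Nat.find h) with h0 | h0
      · rw [h0, hA0]; trivial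
      · obtain ⟨k, hk⟩ := Nat.exists_eq_succ_of_ne_zero h0.ne'
        have := Nat.find_min h (m := k) (by omega)
        rw [not_not] at this
        rw [hk]
        exact this
    · left
      push Not at h
      exact h
  refine ⟨g, ?_, ?_, ?_⟩
  · rw [continuous_iff_continuousAt]
    intro x
    rcases hcase x with h | ⟨n, hn⟩
    · rw [Metric.continuousAt_iff']
      intro ε hε
      obtain ⟨N, hN⟩ := exists_nat_one_div_lt hε
      filter_upwards [(hbig (N + 1)).1.isOpen.mem_nhds (h N)] with x' hx'
      rw [hval0 x h]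
      rcases hcase x' with h' | ⟨m, hm⟩
      · rw [hval0 x' h']
        simpa using hε
      · rw [hval m x' hm]
        have hmN : N < m := by
          by_contra hcon
          push Not at hcon
          exact hm.2 (hanti (by omega : m + 1 ≤ N + 1) hx')
        have h3 : (0 : ℝ) < 1 / ((m : ℝ) + 1) := by positivity
        rw [Real.dist_eq, sub_zero, abs_of_pos h3]
        refine lt_of_le_of_lt ?_ hN
        apply one_div_le_one_div_of_le (by positivity)
        have : (N : ℝ) < m := by exact_mod_cast hmN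
        linarith
    · have h1 : (A n \ A (n + 1)) ∈ 𝓝 x :=
        ((hbig n).1.diff (hbig (n + 1)).1).isOpen.mem_nhds hn
      refine ContinuousAt.congr (f := fun _ => 1 / ((n : ℝ) + 1)) continuousAt_const ?_
      filter_upwards [h1] with x' hx'
      exact (hval n x' hx').symm
  · have hinj : Function.Injective (fun n : ℕ => 1 / ((n : ℝ) + 1)) := by
      intro a b hab
      have h1 : ((a : ℝ) + 1) = (b : ℝ) + 1 := by
        have := congrArg (fun t : ℝ => 1 / t) hab
        simpa using this
      have : (a : ℝ) = b := by linarith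
      exact_mod_cast this
    refine (Set.infinite_range_of_injective hinj).mono ?_
    rintro _ ⟨n, rfl⟩
    obtain ⟨x, hx⟩ := hne n
    exact ⟨x, hval n x hx⟩
  · refine ((countable_range (fun n : ℕ => 1 / ((n : ℝ) + 1))).union
      (countable_singleton (0 : ℝ))).mono ?_
    rintro _ ⟨x, rfl⟩
    rcases hcase x with h | ⟨n, hn⟩
    · right
      exact hval0 x h
    · left
      exact ⟨n, (hval n x hn).symm⟩

/-- If there are only finitely many clopen sets and `g` has infinite range then `g` is not
constant on some atom of the algebra of clopen sets. -/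
theorem exists_atom {X : Type u} [TopologicalSpace X]
    (hfin : {D : Set X | IsClopen D}.Finite) (g : X → ℝ) (hinf : (range g).Infinite) :
    ∃ Q : Set X, IsClopen Q ∧ (∀ D : Set X, IsClopen D → D ⊆ Q → D = ∅ ∨ D = Q) ∧
      ∃ x0 ∈ Q, ∃ x1 ∈ Q, g x0 < g x1 := by
  classical
  let Q : X → Set X := fun x => ⋂ D ∈ {D : Set X | IsClopen D ∧ x ∈ D}, D
  have hfin' : ∀ x, {D : Set X | IsClopen D ∧ x ∈ D}.Finite := fun x =>
    hfin.subset fun D hD => hD.1
  have hQ : ∀ x, IsClopen (Q x) := fun x =>
    (hfin' x).isClopen_biInter fun D hD => hD.1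
  have hxQ : ∀ x, x ∈ Q x := fun x => mem_iInter₂.mpr fun D hD => hD.2
  have hQmin : ∀ x D, IsClopen D → x ∈ D → Q x ⊆ D := fun x D hD hx =>
    biInter_subset_of_mem (show D ∈ {D : Set X | IsClopen D ∧ x ∈ D} from ⟨hD, hx⟩)
  have hatom : ∀ x, ∀ D : Set X, IsClopen D → D ⊆ Q x → D = ∅ ∨ D = Q x := by
    intro x D hD hDQ
    by_cases hx : x ∈ D
    · exact Or.inr (subset_antisymm hDQ (hQmin x D hD hx))
    · left
      have h1 : Q x ⊆ Dᶜ := hQmin x Dᶜ hD.compl hx
      rw [eq_empty_iff_forall_notMem]
      intro z hz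
      exact h1 (hDQ hz) hz
  by_contra hcon
  push Not at hcon
  have hconst : ∀ x, ∀ z ∈ Q x, g z = g x := by
    intro x z hz
    apply le_antisymm
    · exact hcon (Q x) (hQ x) (hatom x) x (hxQ x) z hz
    · exact hcon (Q x) (hQ x) (hatom x) z hz x (hxQ x)
  apply hinf
  have hQfin : (range Q).Finite := hfin.subset (by rintro _ ⟨x, rfl⟩; exact hQ x)
  have hfac : range g ⊆ (fun D : Set X => if h : ∃ z, Q z = D then g h.choose else 0) ''
      (range Q) := by
    rintro _ ⟨x, rfl⟩
    refine ⟨Q x, ⟨x, rfl⟩, ?_⟩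
    have h : ∃ z, Q z = Q x := ⟨x, rfl⟩
    simp only [dif_pos h]
    have h2 := h.choose_spec
    apply hconst
    exact h2.subset (hxQ _)
  exact (hQfin.image _).subset hfac

/-- The general criterion. -/
theorem hasCosmicOpenQuotient_of_locally_connected {X : Type u} [TopologicalSpace X]
    (g : X → ℝ) (hg : Continuous g) (hinf : (range g).Infinite) (C : Set X)
    (hC : IsLindelofSigma C)
    (hloc : ∀ x, g x ∉ g '' C → ∀ U ∈ 𝓝 x, ∃ V ∈ 𝓝 x, V ⊆ U ∧ IsPreconnected V) :
    HasCosmicOpenQuotient X := by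
  classical
  by_cases hfin : {D : Set X | IsClopen D}.Infinite
  · obtain ⟨g', h1, h2, h3⟩ := exists_countable_range hfin
    exact hasCosmicOpenQuotient_of_countable_range g' h1 h2 h3
  rw [not_infinite] at hfin
  obtain ⟨Q, hQ, hatom, x0, hx0, x1, hx1, h01⟩ := exists_atom hfin g hinf
  set a := g x0 with ha
  set b := g x1 with hb
  let G : X → Icc a b := fun x => projIcc a b h01.le (g x)
  have hGe : Continuous fun x => (G x : ℝ) :=
    continuous_subtype_val.comp (continuous_projIcc.comp hg)
  -- intermediate values on the atom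
  have hivt : ∀ m, a ≤ m → m ≤ b → ∃ x, g x = m := by
    intro m ham hmb
    by_contra hcon
    push Not at hcon
    have h1 : IsClopen (Q ∩ g ⁻¹' (Ici m)) := by
      refine ⟨hQ.isClosed.inter (isClosed_Ici.preimage hg), ?_⟩
      have : Q ∩ g ⁻¹' (Ici m) = Q ∩ g ⁻¹' (Ioi m) := by
        ext x
        simp only [mem_inter_iff, mem_preimage, mem_Ici, mem_Ioi]
        constructor
        · rintro ⟨h, h'⟩
          exact ⟨h, lt_of_le_of_ne h' (hcon x).symm⟩
        · rintro ⟨h, h'⟩
          exact ⟨h, h'.le⟩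
      rw [this]
      exact hQ.isOpen.inter (isOpen_Ioi.preimage hg)
    rcases hatom _ h1 inter_subset_left with h | h
    · have : x1 ∈ Q ∩ g ⁻¹' (Ici m) := ⟨hx1, hmb⟩
      rw [h] at this
      exact this
    · have : x0 ∈ Q ∩ g ⁻¹' (Ici m) := by rw [h]; exact hx0
      exact hcon x0 (le_antisymm ham this.2)
  have hGsurj : Function.Surjective G := by
    rintro ⟨m, hm⟩
    obtain ⟨x, hx⟩ := hivt m hm.1 hm.2
    refine ⟨x, ?_⟩
    apply Subtype.ext
    simp only [G, hx, projIcc_of_mem h01.le hm]
  have hGval : ∀ x, a < (G x : ℝ) → (G x : ℝ) < b → g x = G x := by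
    intro x h1 h2
    simp only [G, coe_projIcc] at h1 h2 ⊢
    rcases le_total (g x) b with h3 | h3
    · rw [min_eq_right h3] at h1 h2 ⊢
      rcases le_total a (g x) with h4 | h4
      · rw [max_eq_right h4]
      · rw [max_eq_left h4] at h1; exact absurd h1 (lt_irrefl _)
    · rw [min_eq_left h3] at h1 h2 ⊢
      rw [max_eq_right h01.le] at h2
      exact absurd h2 (lt_irrefl _)
  have hGval' : ∀ x, a ≤ g x → g x ≤ b → (G x : ℝ) = g x := by
    intro x h1 h2
    simp only [G, projIcc_of_mem h01.le ⟨h1, h2⟩]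
  refine hasCosmicOpenQuotient_of_network (S := Icc a b) G hGe hGsurj
    (Icc_infinite h01) ?_
  obtain ⟨N, hN, hNC⟩ := exists_network_of_sigma C hC (S := Icc a b) G hGe
  refine ⟨N ∪ ({{⟨a, left_mem_Icc.mpr h01.le⟩}, {⟨b, right_mem_Icc.mpr h01.le⟩}} ∪
    TopologicalSpace.countableBasis (Icc a b)), ?_, ?_⟩
  · exact hN.union ((Set.toFinite _).countable.union
      (TopologicalSpace.countable_countableBasis _))
  · rintro ⟨y, hya, hyb⟩ U hU hyU
    by_cases hy1 : y = a
    · subst hy1
      exact ⟨_, Or.inr (Or.inl (Or.inl rfl)), rfl, singleton_subset_iff.mpr hyU⟩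
    by_cases hy2 : y = b
    · subst hy2
      exact ⟨_, Or.inr (Or.inl (Or.inr rfl)), rfl, singleton_subset_iff.mpr hyU⟩
    have hay : a < y := lt_of_le_of_ne hya (Ne.symm hy1)
    have hyb' : y < b := lt_of_le_of_ne hyb hy2
    by_cases hyC : y ∈ g '' C
    · obtain ⟨c, hc, hcy⟩ := hyC
      have h1 : G c = ⟨y, hya, hyb⟩ := by
        apply Subtype.ext
        rw [hGval' c (by rw [hcy]; exact hya) (by rw [hcy]; exact hyb), hcy]
      obtain ⟨A, hA, hcA, hAU⟩ := hNC c hc U hU (by rw [h1]; exact hyU)
      exact ⟨A, Or.inl hA, by rw [← h1]; exact hcA, hAU⟩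
    · -- the Euclidean neighbourhood
      have hGU : IsOpen (G ⁻¹' U) :=
        @IsOpen.preimage X (Icc a b) _ (realQuotient G) G (continuous_to_realQuotient G) U hU
      have hO : ∀ x, g x = y → ∃ V ∈ 𝓝 x, V ⊆ G ⁻¹' U ∧ IsPreconnected V := by
        intro x hx
        apply hloc x (by rw [hx]; exact hyC)
        apply hGU.mem_nhds
        show G x ∈ U
        have : G x = ⟨y, hya, hyb⟩ := by
          apply Subtype.ext
          rw [hGval' x (by rw [hx]; exact hya) (by rw [hx]; exact hyb), hx]
        rw [this]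
        exact hyU
      have hleft : ∃ s < y, ∀ t (ht : t ∈ Icc a b), s < t → t ≤ y → (⟨t, ht⟩ : Icc a b) ∈ U := by
        by_contra hcon
        push Not at hcon
        have key : ∀ x, g x = y → ∃ V ∈ 𝓝 x, ∀ z ∈ V, y ≤ g z := by
          intro x hx
          obtain ⟨V, hV, hVU, hVp⟩ := hO x hx
          refine ⟨V, hV, fun z hz => ?_⟩
          by_contra hlt
          push Not at hlt
          obtain ⟨t, ht, hst, hty, htU⟩ := hcon (g z) hlt
          have hconn : IsPreconnected (g '' V) := hVp.image g hg.continuousOn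
          have h2 : t ∈ g '' V := hconn.Icc_subset (mem_image_of_mem g hz)
            (mem_image_of_mem g (mem_of_mem_nhds hV)) ⟨hst.le, by rw [hx]; exact hty⟩
          obtain ⟨w, hw, hwt⟩ := h2
          apply htU
          have h3 : G w = ⟨t, ht⟩ := by
            apply Subtype.ext
            rw [hGval' w (by rw [hwt]; exact ht.1) (by rw [hwt]; exact ht.2), hwt]
          rw [← h3]
          exact hVU hw
        have hclopen : IsClopen (Q ∩ g ⁻¹' (Ici y)) := by
          refine ⟨hQ.isClosed.inter (isClosed_Ici.preimage hg), ?_⟩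
          rw [isOpen_iff_mem_nhds]
          rintro x ⟨hxQ, hxy⟩
          refine Filter.inter_mem (hQ.isOpen.mem_nhds hxQ) ?_
          rcases lt_or_eq_of_le (show y ≤ g x from hxy) with h | h
          · exact Filter.mem_of_superset ((isOpen_Ioi.preimage hg).mem_nhds h)
              (preimage_mono Ioi_subset_Ici_self)
          · obtain ⟨V, hV, hVy⟩ := key x h.symm
            exact Filter.mem_of_superset hV hVy
        rcases hatom _ hclopen inter_subset_left with h | h
        · have : x1 ∈ Q ∩ g ⁻¹' (Ici y) := ⟨hx1, hyb⟩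
          rw [h] at this
          exact this
        · have : x0 ∈ Q ∩ g ⁻¹' (Ici y) := by rw [h]; exact hx0
          exact absurd this.2 (not_le.mpr hay)
      have hright : ∃ s > y, ∀ t (ht : t ∈ Icc a b), t < s → y ≤ t → (⟨t, ht⟩ : Icc a b) ∈ U := by
        by_contra hcon
        push Not at hcon
        have key : ∀ x, g x = y → ∃ V ∈ 𝓝 x, ∀ z ∈ V, g z ≤ y := by
          intro x hx
          obtain ⟨V, hV, hVU, hVp⟩ := hO x hx
          refine ⟨V, hV, fun z hz => ?_⟩
          by_contra hlt
          push Not at hlt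
          obtain ⟨t, ht, hst, hty, htU⟩ := hcon (g z) hlt
          have hconn : IsPreconnected (g '' V) := hVp.image g hg.continuousOn
          have h2 : t ∈ g '' V := hconn.Icc_subset (mem_image_of_mem g (mem_of_mem_nhds hV))
            (mem_image_of_mem g hz) ⟨by rw [hx]; exact hty, hst.le⟩
          obtain ⟨w, hw, hwt⟩ := h2
          apply htU
          have h3 : G w = ⟨t, ht⟩ := by
            apply Subtype.ext
            rw [hGval' w (by rw [hwt]; exact ht.1) (by rw [hwt]; exact ht.2), hwt]
          rw [← h3]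
          exact hVU hw
        have hclopen : IsClopen (Q ∩ g ⁻¹' (Iic y)) := by
          refine ⟨hQ.isClosed.inter (isClosed_Iic.preimage hg), ?_⟩
          rw [isOpen_iff_mem_nhds]
          rintro x ⟨hxQ, hxy⟩
          refine Filter.inter_mem (hQ.isOpen.mem_nhds hxQ) ?_
          rcases lt_or_eq_of_le (show g x ≤ y from hxy) with h | h
          · exact Filter.mem_of_superset ((isOpen_Iio.preimage hg).mem_nhds h)
              (preimage_mono Iio_subset_Iic_self)
          · obtain ⟨V, hV, hVy⟩ := key x h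
            exact Filter.mem_of_superset hV hVy
        rcases hatom _ hclopen inter_subset_left with h | h
        · have : x0 ∈ Q ∩ g ⁻¹' (Iic y) := ⟨hx0, hya⟩
          rw [h] at this
          exact this
        · have : x1 ∈ Q ∩ g ⁻¹' (Iic y) := by rw [h]; exact hx1
          exact absurd this.2 (not_le.mpr hyb')
      obtain ⟨s1, hs1, hs1U⟩ := hleft
      obtain ⟨s2, hs2, hs2U⟩ := hright
      have hnhds : {t : Icc a b | s1 < (t : ℝ) ∧ (t : ℝ) < s2} ∈
          @nhds (Icc a b) instTopologicalSpaceSubtype ⟨y, hya, hyb⟩ := by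
        apply IsOpen.mem_nhds
        · exact (isOpen_Ioi.preimage continuous_subtype_val).inter
            (isOpen_Iio.preimage continuous_subtype_val)
        · exact ⟨hs1, hs2⟩
      obtain ⟨J, hJ1, hJ2, hJ3⟩ :=
        (TopologicalSpace.isBasis_countableBasis (Icc a b)).mem_nhds_iff.mp hnhds
      refine ⟨J, Or.inr (Or.inr hJ1), hJ2, ?_⟩
      intro t ht
      obtain ⟨h1, h2⟩ := hJ3 ht
      rcases le_total (t : ℝ) y with h | h
      · exact hs1U t.1 t.2 h1 h
      · exact hs2U t.1 t.2 h2 h

end Pool.Agent.MP_5beb1e_gt
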