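import Pool.Agent.MP_5beb1e_gt.Wild
import Pool.Agent.MP_5beb1e_gt.Clopen

/-! Big subsets of a space: subsets which some real function on the space maps onto the unit
interval; Lindelof spaces with closed Lindelof Sigma sets of countable character. -/

open Set Topology Filter

namespace Pool.Agent.MP_5beb1e_gt

universe u v

/-- A Peano map onto the Hilbert cube. -/
theorem exists_peano : ∃ p : unitInterval → (ℕ → unitInterval), Continuous p ∧
    Function.Surjective p := by
  let c : C(cantorSet, ℕ → unitInterval) :=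
    ⟨fun x => cantorToHilbert (cantorSetHomeomorphNatToBool x),
      cantorToHilbert_continuous.comp cantorSetHomeomorphNatToBool.continuous⟩
  obtain ⟨g, hg⟩ := c.exists_restrict_eq isClosed_cantorSet
  refine ⟨fun t => g t.1, g.continuous.comp continuous_subtype_val, ?_⟩
  intro q
  obtain ⟨b, hb⟩ := cantorToHilbert_surjective q
  let x : cantorSet := cantorSetHomeomorphNatToBool.symm b
  refine ⟨⟨x.1, cantorSet_subset_unitInterval x.2⟩, ?_⟩
  have h1 : g x.1 = c x := by
    rw [← hg]
    rfl
  show g x.1 = q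
  rw [h1]
  show cantorToHilbert (cantorSetHomeomorphNatToBool x) = q
  simp only [x, Homeomorph.apply_symm_apply]
  exact hb

/-- A subset is big if some map of the space into the Hilbert cube maps it onto the cube. -/
def Big {X : Type u} [TopologicalSpace X] (S : Set X) : Prop :=
  ∃ f : X → (ℕ → unitInterval), Continuous f ∧ f '' S = univ

theorem Big.mono {X : Type u} [TopologicalSpace X] {S T : Set X} (hS : Big S) (hST : S ⊆ T) :
    Big T := by
  obtain ⟨f, hf, h⟩ := hS
  refine ⟨f, hf, ?_⟩
  rw [← univ_subset_iff, ← h]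
  exact image_mono hST

/-- Small sets form a sigma ideal. -/
theorem Big.exists_of_iUnion {X : Type u} [TopologicalSpace X] {ι : Type*} [Countable ι]
    {S : ι → Set X} (hS : Big (⋃ i, S i)) : ∃ i, Big (S i) := by
  classical
  obtain ⟨f, hf, h⟩ := hS
  by_contra hcon
  push Not at hcon
  obtain ⟨enc, henc⟩ := exists_injective_nat ι
  let F : ι → X → (ℕ → unitInterval) := fun i x n => f x (Nat.pair (enc i) n)
  have hF : ∀ i, Continuous (F i) := fun i =>
    continuous_pi fun n => (continuous_apply (Nat.pair (enc i) n)).comp hf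
  have hr : ∀ i, ∃ r, r ∉ F i '' S i := by
    intro i
    by_contra hc
    push Not at hc
    exact hcon i ⟨F i, hF i, eq_univ_of_forall hc⟩
  choose r hr using hr
  let r' : ℕ → (ℕ → unitInterval) := fun a => if h : ∃ i, enc i = a then r h.choose else 0
  have hr' : ∀ i, r' (enc i) = r i := by
    intro i
    have hex : ∃ j, enc j = enc i := ⟨i, rfl⟩
    simp only [r', dif_pos hex]
    rw [henc hex.choose_spec]
  let q : ℕ → unitInterval := fun m => r' (Nat.unpair m).1 (Nat.unpair m).2
  have hq : q ∈ f '' ⋃ i, S i := by rw [h]; trivial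
  obtain ⟨x, hx, hxq⟩ := hq
  obtain ⟨i, hi⟩ := mem_iUnion.mp hx
  apply hr i
  refine ⟨x, hi, ?_⟩
  funext n
  show f x (Nat.pair (enc i) n) = r i n
  rw [hxq]
  simp only [q, Nat.unpair_pair, hr']

theorem Big.nonempty {X : Type u} [TopologicalSpace X] {S : Set X} (hS : Big S) : S.Nonempty := by
  obtain ⟨f, _, h⟩ := hS
  rw [nonempty_iff_ne_empty]
  rintro rfl
  rw [image_empty] at h
  exact (empty_ne_univ h).elim

/-- If the space is not big then it has infinitely many clopen sets. -/
theorem infinite_clopens_of_not_big {X : Type u} [TopologicalSpace X] [T35Space X] [Infinite X]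
    (h : ¬ Big (univ : Set X)) : {D : Set X | IsClopen D}.Infinite := by
  obtain ⟨p, hp, hps⟩ := exists_peano
  have hsep : ∀ x y : X, x ≠ y → ∃ D : Set X, IsClopen D ∧ x ∈ D ∧ y ∉ D := by
    intro x y hxy
    obtain ⟨g, hg, hg0, hg1⟩ := CompletelyRegularSpace.completely_regular x {y}
      isClosed_singleton (by simpa using hxy)
    have hns : ¬ Function.Surjective g := by
      intro hs
      apply h
      refine ⟨p ∘ g, hp.comp hg, ?_⟩
      rw [image_univ]
      exact (hps.comp hs).range_eq
    simp only [Function.Surjective, not_forall, not_exists] at hns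
    obtain ⟨r, hr⟩ := hns
    refine ⟨g ⁻¹' Iio r, ⟨?_, isOpen_Iio.preimage hg⟩, ?_, ?_⟩
    · have : g ⁻¹' Iio r = g ⁻¹' Iic r := by
        ext z
        simp only [mem_preimage, mem_Iio, mem_Iic]
        exact ⟨le_of_lt, fun h => lt_of_le_of_ne h (hr z)⟩
      rw [this]
      exact isClosed_Iic.preimage hg
    · show g x < r
      rw [hg0]
      exact lt_of_le_of_ne unitInterval.nonneg' fun h0 => hr x (by rw [hg0]; exact h0)
    · intro h1
      have h2 : g y < r := h1
      have h3 : g y = 1 := hg1 rfl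
      rw [h3] at h2
      exact absurd h2 (not_lt.mpr unitInterval.le_one')
  intro hfin
  have : Finite {D : Set X | IsClopen D} := hfin
  have hinj : Function.Injective fun x : X => {D : {D : Set X | IsClopen D} | x ∈ D.1} := by
    intro x y hxy
    by_contra hne
    obtain ⟨D, hD, hx, hy⟩ := hsep x y hne
    have h1 : (⟨D, hD⟩ : {D : Set X | IsClopen D}) ∈
        {D : {D : Set X | IsClopen D} | x ∈ D.1} := hx
    have hxy' : {D : {D : Set X | IsClopen D} | x ∈ D.1} =
        {D : {D : Set X | IsClopen D} | y ∈ D.1} := hxy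
    rw [hxy'] at h1
    exact hy h1
  have := Finite.of_injective _ hinj
  exact not_finite X

/-- The hereditarily big core. -/
def core (X : Type u) [TopologicalSpace X] : Set X := (⋃₀ {O : Set X | IsOpen O ∧ ¬ Big O})ᶜ

theorem isClosed_core (X : Type u) [TopologicalSpace X] : IsClosed (core X) := by
  unfold core
  rw [isClosed_compl_iff]
  exact isOpen_sUnion fun O hO => hO.1

theorem not_big_of_closed {X : Type u} [TopologicalSpace X] [LindelofSpace X] {A : Set X}
    (hA : IsClosed A) (hAc : A ∩ core X = ∅) : ¬ Big A := by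
  intro hbig
  have hsub : A ⊆ ⋃ O : {O : Set X | IsOpen O ∧ ¬ Big O}, O.1 := by
    intro x hx
    by_contra hcon
    have : x ∈ A ∩ core X := by
      refine ⟨hx, ?_⟩
      rintro ⟨O, hO, hxO⟩
      exact hcon (mem_iUnion.mpr ⟨⟨O, hO⟩, hxO⟩)
    rw [hAc] at this
    exact this
  obtain ⟨r, hr, hAr⟩ := hA.isLindelof.elim_countable_subcover
    (fun O : {O : Set X | IsOpen O ∧ ¬ Big O} => O.1) (fun O => O.2.1) hsub
  have := hr.to_subtype
  rw [biUnion_eq_iUnion] at hAr
  obtain ⟨O, hO⟩ := (hbig.mono hAr).exists_of_iUnion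
  exact O.1.2.2 hO

theorem core_nonempty {X : Type u} [TopologicalSpace X] [LindelofSpace X]
    (h : Big (univ : Set X)) : (core X).Nonempty := by
  rw [nonempty_iff_ne_empty]
  intro hcon
  exact not_big_of_closed isClosed_univ (by rw [hcon, inter_empty]) h

theorem big_inter_core {X : Type u} [TopologicalSpace X] [LindelofSpace X]
    [CompletelyRegularSpace X] {O : Set X} (hO : IsOpen O) (hne : (O ∩ core X).Nonempty) :
    Big (O ∩ core X) := by
  classical
  obtain ⟨x, hxO, hxc⟩ := hne
  obtain ⟨g, hg, hg0, hg1⟩ := CompletelyRegularSpace.completely_regular x Oᶜ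
    hO.isClosed_compl (by simpa using hxO)
  let O' : Set X := {y | g y < 1}
  have hO'o : IsOpen O' := isOpen_Iio.preimage hg
  have hO'O : O' ⊆ O := by
    intro y hy
    by_contra hcon
    have : g y = 1 := hg1 hcon
    exact absurd this (ne_of_lt hy)
  have hxO' : x ∈ O' := by
    show g x < 1
    rw [hg0]
    exact zero_lt_one
  have hO'big : Big O' := by
    by_contra hcon
    exact hxc ⟨O', ⟨hO'o, hcon⟩, hxO'⟩
  by_contra hcon
  have hcon' : ¬ Big (O' ∩ core X) := fun h => hcon (h.mono (inter_subset_inter_left _ hO'O))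
  obtain ⟨f, hf, hfO⟩ := hO'big
  let f1 : X → (ℕ → unitInterval) := fun y n => f y (2 * n)
  let f2 : X → (ℕ → unitInterval) := fun y n => f y (2 * n + 1)
  have hf1 : Continuous f1 := continuous_pi fun n => (continuous_apply (2 * n)).comp hf
  have hf2 : Continuous f2 := continuous_pi fun n => (continuous_apply (2 * n + 1)).comp hf
  obtain ⟨r, hr⟩ : ∃ r, r ∉ f1 '' (O' ∩ core X) := by
    by_contra hc
    push Not at hc
    exact hcon' ⟨f1, hf1, eq_univ_of_forall hc⟩
  let A : ℕ → Set X := fun n => {y | (g y : ℝ) ≤ 1 - 1 / (n + 1)} ∩ f1 ⁻¹' {r}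
  have hAcl : ∀ n, IsClosed (A n) := by
    intro n
    refine IsClosed.inter ?_ (isClosed_singleton.preimage hf1)
    exact isClosed_le (continuous_subtype_val.comp hg) continuous_const
  have hAO' : ∀ n, A n ⊆ O' := by
    rintro n y ⟨hy, _⟩
    have h1 : (g y : ℝ) ≤ 1 - 1 / (n + 1) := hy
    have h2 : (0:ℝ) < 1 / (n + 1) := by positivity
    show g y < 1
    apply Subtype.coe_lt_coe.mp
    have h3 : ((1 : unitInterval) : ℝ) = 1 := rfl
    rw [h3]
    linarith
  have hAsmall : ∀ n, ¬ Big (A n) := by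
    intro n
    apply not_big_of_closed (hAcl n)
    rw [eq_empty_iff_forall_notMem]
    rintro y ⟨hyA, hyc⟩
    exact hr ⟨y, ⟨hAO' n hyA, hyc⟩, hyA.2⟩
  have hUsmall : ¬ Big (⋃ n, A n) := by
    intro hb
    obtain ⟨n, hn⟩ := hb.exists_of_iUnion
    exact hAsmall n hn
  obtain ⟨s, hs⟩ : ∃ s, s ∉ f2 '' ⋃ n, A n := by
    by_contra hc
    push Not at hc
    exact hUsmall ⟨f2, hf2, eq_univ_of_forall hc⟩
  let q : ℕ → unitInterval := fun m => if m % 2 = 0 then r (m / 2) else s (m / 2)
  have hq : q ∈ f '' O' := by rw [hfO]; trivial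
  obtain ⟨y, hy, hyq⟩ := hq
  have h1 : f1 y = r := by
    funext n
    show f y (2 * n) = r n
    rw [hyq]
    simp [q]
  have h2 : f2 y = s := by
    funext n
    show f y (2 * n + 1) = s n
    rw [hyq]
    have h3 : (2 * n + 1) % 2 = 1 := by omega
    have h4 : (2 * n + 1) / 2 = n := by omega
    simp only [q, h3, h4, one_ne_zero, if_false]
  apply hs
  refine ⟨y, ?_, h2⟩
  have hy1 : (g y : ℝ) < 1 := hy
  obtain ⟨n, hn⟩ := exists_nat_one_div_lt (sub_pos.mpr hy1)
  refine mem_iUnion.mpr ⟨n, ?_, h1⟩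
  show (g y : ℝ) ≤ 1 - 1 / (n + 1)
  linarith

/-- `K` has a countable outer base in the subspace `F`. -/
def HasCountableOuterBase {X : Type u} [TopologicalSpace X] (F K : Set X) : Prop :=
  ∃ U : ℕ → Set X, (∀ n, IsOpen (U n) ∧ K ⊆ U n) ∧
    ∀ O : Set X, IsOpen O → K ⊆ O → ∃ n, U n ∩ F ⊆ O

theorem hasCosmicOpenQuotient_of_small {X : Type u} [TopologicalSpace X] [LindelofSpace X]
    [T35Space X] (K : Set X) (hKc : K ⊆ core X) (hKne : K.Nonempty) (hKcl : IsClosed K)
    (hKb : HasCountableOuterBase (core X) K) (hsmall : ¬ Big K) : HasCosmicOpenQuotient X := by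
  classical
  obtain ⟨U, hU, hUb⟩ := hKb
  -- shrinking neighbourhoods
  have hstep : ∀ (n : ℕ) (V : {V : Set X // IsOpen V ∧ K ⊆ V}),
      ∃ V' : {V : Set X // IsOpen V ∧ K ⊆ V}, closure V'.1 ⊆ V.1 ∩ U (n + 1) := by
    intro n V
    obtain ⟨W, hW1, hW2, hW3⟩ := normal_exists_closure_subset hKcl
      (V.2.1.inter (hU (n + 1)).1) (subset_inter V.2.2 (hU (n + 1)).2)
    exact ⟨⟨W, hW1, hW2⟩, hW3⟩
  choose step hstep using hstep
  let T' : ℕ → {V : Set X // IsOpen V ∧ K ⊆ V} := fun n =>
    Nat.rec ⟨U 0, hU 0⟩ (fun n V => step n V) n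
  let T : ℕ → Set X := fun n => (T' n).1
  have hTo : ∀ n, IsOpen (T n) := fun n => (T' n).2.1
  have hTK : ∀ n, K ⊆ T n := fun n => (T' n).2.2
  have hTs : ∀ n, closure (T (n + 1)) ⊆ T n ∩ U (n + 1) := fun n => hstep n (T' n)
  have hTU : ∀ n, T n ⊆ U n := by
    intro n
    cases n with
    | zero => exact subset_rfl
    | succ n => exact (subset_closure.trans (hTs n)).trans inter_subset_right
  have hTcl : ∀ n, closure (T (n + 1)) ⊆ T n := fun n => (hTs n).trans inter_subset_left
  have hTanti : Antitone T := antitone_nat_of_succ_le fun n => subset_closure.trans (hTcl n)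
  -- big layers
  have hbig : ∀ n, ∃ i ≥ n, Big ((T i \ T (i + 1)) ∩ core X) := by
    intro n
    have h1 : Big (T n ∩ core X) := by
      apply big_inter_core (hTo n)
      obtain ⟨y, hy⟩ := hKne
      exact ⟨y, hTK n hy, hKc hy⟩
    let S : Option ℕ → Set X := fun o =>
      match o with
      | none => K
      | some i => (T (n + i) \ T (n + i + 1)) ∩ core X
    have h2 : T n ∩ core X ⊆ ⋃ o, S o := by
      rintro y ⟨hyT, hyc⟩
      by_cases hyK : y ∈ K
      · exact mem_iUnion.mpr ⟨none, hyK⟩
      · by_contra hcon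
        have h3 : ∀ i, y ∈ T (n + i) := by
          intro i
          induction i with
          | zero => exact hyT
          | succ i ih =>
            by_contra h4
            exact hcon (mem_iUnion.mpr ⟨some i, ⟨ih, h4⟩, hyc⟩)
        obtain ⟨m, hm⟩ := hUb {y}ᶜ isOpen_compl_singleton (by
          intro z hz hzy
          exact hyK (hzy ▸ hz))
        have h5 : y ∈ T m := hTanti (Nat.le_add_left m n) (h3 m)
        exact hm ⟨hTU m h5, hyc⟩ rfl
    obtain ⟨o, ho⟩ := (h1.mono h2).exists_of_iUnion
    cases o with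
    | none => exact absurd ho hsmall
    | some i => exact ⟨n + i, Nat.le_add_right n i, ho⟩
  choose nx hnx1 hnx2 using hbig
  let b : ℕ → ℕ := fun k => Nat.rec (nx 1) (fun _ m => nx (m + 3)) k
  have hb0 : b 0 = nx 1 := rfl
  have hbs : ∀ k, b (k + 1) = nx (b k + 3) := fun k => rfl
  have hbbig : ∀ k, Big ((T (b k) \ T (b k + 1)) ∩ core X) := by
    intro k
    cases k with
    | zero => exact hnx2 1
    | succ k => exact hnx2 _
  have hb3 : ∀ k, b k + 3 ≤ b (k + 1) := fun k => hnx1 _
  have hb1 : ∀ k, k + 1 ≤ b k := by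
    intro k
    induction k with
    | zero => exact hnx1 1
    | succ k ih => have := hb3 k; omega
  have hbmono : ∀ j k, j < k → b j + 3 ≤ b k := by
    intro j k hjk
    induction k with
    | zero => omega
    | succ k ih =>
      have h3 := hb3 k
      rcases Nat.lt_succ_iff_lt_or_eq.mp hjk with h | h
      · have := ih h; omega
      · rw [h]; exact h3
  let G : ℕ → Set X := fun k => T (b k - 1) \ closure (T (b k + 2))
  let P : ℕ → Set X := fun k => closure (T (b k)) \ T (b k + 1)
  have hGo : ∀ k, IsOpen (G k) := fun k => (hTo _).sdiff isClosed_closure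
  have hPc : ∀ k, IsClosed (P k) := fun k => IsClosed.inter isClosed_closure (hTo (b k + 1)).isClosed_compl
  have hPG : ∀ k, P k ⊆ G k := by
    rintro k y ⟨hy1, hy2⟩
    refine ⟨?_, fun h => hy2 (hTcl (b k + 1) h)⟩
    have h1 := hb1 k
    have h2 : b k = b k - 1 + 1 := by omega
    rw [h2] at hy1
    exact hTcl (b k - 1) hy1
  have hury : ∀ k, ∃ f : C(X, ℝ), EqOn f 0 (G k)ᶜ ∧ EqOn f 1 (P k) ∧ ∀ x, f x ∈ Icc (0:ℝ) 1 :=
    fun k => exists_continuous_zero_one_of_isClosed (hGo k).isClosed_compl (hPc k)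
      (disjoint_left.mpr fun y hy hy' => hy (hPG k hy'))
  choose h hh0 hh1 hh01 using hury
  choose f hf hfb using hbbig
  have hGdisj : ∀ j k, j < k → ∀ x, x ∈ G j → x ∉ G k := by
    intro j k hjk x hxj hxk
    apply hxj.2
    apply subset_closure
    have h1 : b j + 2 ≤ b k - 1 := by
      have := hbmono j k hjk
      omega
    have h2 : T (b k - 1) ⊆ T (b j + 2) := hTanti h1
    exact h2 hxk.1
  have hzero : ∀ k x, x ∉ G k → h k x = 0 := fun k x hx => hh0 k hx
  refine hasCosmicOpenQuotient_of_wild (fun k x => h k x) (fun k x => (f k x 0, f k x 1))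
    (fun k => (h k).continuous) (fun k x => hh01 k x) ?_ ?_ ?_
  · intro j k x hjk
    by_cases hxj : x ∈ G j
    · by_cases hxk : x ∈ G k
      · rcases lt_or_gt_of_ne hjk with h1 | h1
        · exact absurd hxk (hGdisj j k h1 x hxj)
        · exact absurd hxj (hGdisj k j h1 x hxk)
      · exact Or.inr (hzero k x hxk)
    · exact Or.inl (hzero j x hxj)
  · intro k
    exact ((continuous_apply 0).comp (hf k)).prodMk ((continuous_apply 1).comp (hf k))
  · intro r hlf
    let E : ℕ → Set X := fun k => {x | h k x = 1 ∧ ((f k x 0, f k x 1) : _ × _) = r k} ∩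
      (P k ∩ core X)
    have hElf : LocallyFinite E := hlf.subset fun k => inter_subset_left
    have hEc : ∀ k, IsClosed (E k) := by
      intro k
      refine IsClosed.inter ?_ ((hPc k).inter (isClosed_core X))
      refine IsClosed.inter (isClosed_eq (h k).continuous continuous_const) ?_
      exact isClosed_eq (((continuous_apply 0).comp (hf k)).prodMk
        ((continuous_apply 1).comp (hf k))) continuous_const
    have hUc : IsClosed (⋃ k, E k) := hElf.isClosed_iUnion hEc
    obtain ⟨n, hn⟩ := hUb (⋃ k, E k)ᶜ hUc.isOpen_compl (by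
      intro y hy hyE
      obtain ⟨k, hk⟩ := mem_iUnion.mp hyE
      exact hk.2.1.2 (hTK (b k + 1) hy))
    -- a point in the set with index `n`
    let q : ℕ → unitInterval := fun m => if m = 0 then (r n).1 else (r n).2
    have hq : q ∈ f n '' ((T (b n) \ T (b n + 1)) ∩ core X) := by rw [hfb n]; trivial
    obtain ⟨y, ⟨⟨hyT, hyT'⟩, hyc⟩, hyq⟩ := hq
    have hyP : y ∈ P n := ⟨subset_closure hyT, hyT'⟩
    have hyE : y ∈ E n := by
      refine ⟨⟨hh1 n hyP, ?_⟩, hyP, hyc⟩
      show (f n y 0, f n y 1) = r n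
      rw [hyq]
      simp [q]
    have hyU : y ∈ U n := hTU n (hTanti ((Nat.le_succ n).trans (hb1 n)) hyT)
    exact hn ⟨hyU, hyc⟩ (mem_iUnion.mpr ⟨n, hyE⟩)

/-- The class theorem. -/
theorem hasCosmicOpenQuotient_of_class {X : Type u} [TopologicalSpace X] [LindelofSpace X]
    [T35Space X] [Infinite X]
    (h : ∀ F : Set X, IsClosed F → F.Nonempty → ∃ K ⊆ F, K.Nonempty ∧ IsClosed K ∧
      IsLindelofSigma K ∧ HasCountableOuterBase F K) : HasCosmicOpenQuotient X := by
  by_cases hbig : Big (univ : Set X)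
  · obtain ⟨K, hKc, hKne, hKcl, hKS, hKb⟩ := h (core X) (isClosed_core X) (core_nonempty hbig)
    by_cases hK : Big K
    · obtain ⟨f, hf, hfK⟩ := hK
      let g : X → ℝ := fun x => f x 0
      have hg : Continuous g := continuous_subtype_val.comp ((continuous_apply 0).comp hf)
      have hgK : g '' K = Icc (0:ℝ) 1 := by
        apply subset_antisymm
        · rintro _ ⟨x, _, rfl⟩
          exact (f x 0).2
        · intro t ht
          have : (fun _ => ⟨t, ht⟩ : ℕ → unitInterval) ∈ f '' K := by rw [hfK]; trivial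
          obtain ⟨x, hx, hxt⟩ := this
          refine ⟨x, hx, ?_⟩
          show ((f x 0 : unitInterval) : ℝ) = t
          rw [hxt]
      have hgr : range g = Icc (0:ℝ) 1 := by
        apply subset_antisymm
        · rintro _ ⟨x, rfl⟩
          exact (f x 0).2
        · rw [← hgK]
          exact image_subset_range g K
      refine hasCosmicOpenQuotient_of_sigma g hg ?_ K hKS (by rw [hgK, hgr])
      rw [hgr]
      exact Set.Icc_infinite zero_lt_one
    · exact hasCosmicOpenQuotient_of_small K hKc hKne hKcl hKb hK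
  · obtain ⟨g, h1, h2, h3⟩ := exists_countable_range (infinite_clopens_of_not_big hbig)
    exact hasCosmicOpenQuotient_of_countable_range g h1 h2 h3

end Pool.Agent.MP_5beb1e_gt
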