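import Mathlib

/-! Definitions for open quotients of free abelian topological groups. -/

open Set Topology

namespace Pool.Agent.MP_5beb1e_gt

universe u v

/-- The topology of the free abelian topological group on `X`: the finest group topology on the
free abelian group for which the inclusion of `X` is continuous. -/
@[reducible] def freeTopology (X : Type u) [TopologicalSpace X] : TopologicalSpace (FreeAbelianGroup X) :=
  (sInf {t : AddGroupTopology (FreeAbelianGroup X) |
    @Continuous X (FreeAbelianGroup X) _ t.toTopologicalSpace
      (FreeAbelianGroup.of : X → FreeAbelianGroup X)}).toTopologicalSpace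

/-- A countable network. -/
def HasCountableNetwork (Y : Type v) [TopologicalSpace Y] : Prop :=
  ∃ N : Set (Set Y), N.Countable ∧
    ∀ (x : Y) (U : Set Y), IsOpen U → x ∈ U → ∃ A ∈ N, x ∈ A ∧ A ⊆ U

/-- There are an infinite Tychonoff space `Y` with a countable network and an open continuous
homomorphism of the free abelian topological group on `X` onto the one on `Y`. -/
def HasCosmicOpenQuotient (X : Type u) [TopologicalSpace X] : Prop :=
  ∃ (Y : Type) (_ : TopologicalSpace Y), T35Space Y ∧ Infinite Y ∧ HasCountableNetwork Y ∧
    ∃ f : FreeAbelianGroup X →+ FreeAbelianGroup Y, Function.Surjective f ∧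
      @Continuous _ _ (freeTopology X) (freeTopology Y) f ∧
      @IsOpenMap _ _ (freeTopology X) (freeTopology Y) f

/-- A perfect map: a continuous closed surjection with compact fibres. -/
def IsPerfectMap {Z : Type u} {M : Type v} [TopologicalSpace Z] [TopologicalSpace M]
    (p : Z → M) : Prop :=
  Continuous p ∧ Function.Surjective p ∧ IsClosedMap p ∧ ∀ m, IsCompact (p ⁻¹' {m})

/-- A Lindelof Sigma space: a continuous image of a Tychonoff space which admits a perfect map
onto a separable metrizable space. -/
def IsLindelofSigma (C : Type u) [TopologicalSpace C] : Prop :=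
  ∃ (Z : Type u) (_ : TopologicalSpace Z) (M : Type u) (_ : TopologicalSpace M)
    (p : Z → M) (h : Z → C), T35Space Z ∧ TopologicalSpace.MetrizableSpace M ∧
      TopologicalSpace.SeparableSpace M ∧ IsPerfectMap p ∧ Continuous h ∧ Function.Surjective h

end Pool.Agent.MP_5beb1e_gt
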