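import Pool.Agent.MP_5beb1e_gt.Big

/-! Open quotients for Menger spaces: if the question has a negative answer for a space then
each of its big subspaces has a relatively closed subspace which maps onto the Baire space. -/

open Set Topology Filter

namespace Pool.Agent.MP_5beb1e_gt

universe u v

/-- `K` is a Menger subspace: from each sequence of open covers one can choose finite subfamilies
which together cover `K`. -/
def IsMenger {X : Type u} [TopologicalSpace X] (K : Set X) : Prop :=
  ∀ U : ℕ → Set (Set X), (∀ n, (∀ V ∈ U n, IsOpen V) ∧ K ⊆ ⋃₀ U n) →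
    ∃ V : ℕ → Set (Set X), (∀ n, V n ⊆ U n ∧ (V n).Finite) ∧ K ⊆ ⋃ n, ⋃₀ V n

/-- The subspace `L` maps continuously onto the Baire space (the irrationals). -/
def MapsOntoBaire {X : Type u} [TopologicalSpace X] (L : Set X) : Prop :=
  ∃ ψ : L → (ℕ → ℕ), Continuous ψ ∧ Function.Surjective ψ

/-! ### The evaluation of a convergent sequence -/

/-- A tent function with peak at `1 / (k + 1)`. -/
noncomputable def tent (k : ℕ) (x : ℝ) : ℝ :=
  max 0 (1 - ((k : ℝ) + 1) * (k + 2) * |x - 1 / (k + 1)|)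

theorem continuous_tent (k : ℕ) : Continuous (tent k) := by
  unfold tent
  fun_prop

theorem tent_nonneg (k : ℕ) (x : ℝ) : 0 ≤ tent k x := le_max_left _ _

theorem tent_le_one (k : ℕ) (x : ℝ) : tent k x ≤ 1 := by
  unfold tent
  refine max_le zero_le_one ?_
  have : 0 ≤ ((k : ℝ) + 1) * (k + 2) * |x - 1 / (k + 1)| := by positivity
  linarith

theorem tent_self (k : ℕ) : tent k (1 / (k + 1)) = 1 := by
  unfold tent
  simp

theorem tent_zero (k : ℕ) : tent k 0 = 0 := by
  unfold tent
  rw [max_eq_left]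
  have h1 : (0:ℝ) < (k : ℝ) + 1 := by positivity
  have h2 : |0 - 1 / ((k : ℝ) + 1)| = 1 / (k + 1) := by
    rw [zero_sub, abs_neg, abs_of_pos (by positivity)]
  rw [h2]
  have h3 : ((k : ℝ) + 1) * (k + 2) * (1 / (k + 1)) = k + 2 := by
    field_simp
  rw [h3]
  have h4 : (0:ℝ) ≤ k := Nat.cast_nonneg k
  linarith

theorem tent_ne {j k : ℕ} (hjk : j ≠ k) : tent k (1 / (j + 1)) = 0 := by
  unfold tent
  rw [max_eq_left]
  have hj : (0:ℝ) < (j : ℝ) + 1 := by positivity
  have hk : (0:ℝ) < (k : ℝ) + 1 := by positivity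
  have h1 : (1:ℝ) / (j + 1) - 1 / (k + 1) = ((k : ℝ) - j) / ((j + 1) * (k + 1)) := by
    field_simp
    ring
  rw [h1, abs_div, abs_of_pos (mul_pos hj hk)]
  have h2 : ((k : ℝ) + 1) * (k + 2) * (|(k : ℝ) - j| / ((j + 1) * (k + 1))) =
      (k + 2) * |(k : ℝ) - j| / (j + 1) := by
    field_simp
  rw [h2]
  have h3 : (1:ℝ) ≤ (k + 2) * |(k : ℝ) - j| / (j + 1) := by
    rw [le_div_iff₀ hj, one_mul]
    rcases lt_or_gt_of_ne hjk with h | h
    · have h4 : (j : ℝ) + 1 ≤ k := by exact_mod_cast h
      have h5 : (1:ℝ) ≤ |(k : ℝ) - j| := by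
        rw [abs_of_nonneg (by linarith)]
        linarith
      have h6 : (0:ℝ) ≤ k := Nat.cast_nonneg k
      nlinarith
    · have h4 : (k : ℝ) + 1 ≤ j := by exact_mod_cast h
      have h5 : |(k : ℝ) - j| = j - k := by
        rw [abs_of_nonpos (by linarith)]
        ring
      rw [h5]
      have h6 : (0:ℝ) ≤ k := Nat.cast_nonneg k
      nlinarith
  linarith

/-- Truncation to `[-r, r]`. -/
noncomputable def clip (r x : ℝ) : ℝ := max (-r) (min r x)

theorem continuous_clip (r : ℝ) : Continuous (clip r) := by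
  unfold clip
  fun_prop

theorem abs_clip_le {r : ℝ} (hr : 0 ≤ r) (x : ℝ) : |clip r x| ≤ r := by
  unfold clip
  rw [abs_le]
  exact ⟨le_max_left _ _, max_le (by linarith) (min_le_left _ _)⟩

theorem clip_of_abs_le {r x : ℝ} (h : |x| ≤ r) : clip r x = x := by
  unfold clip
  rw [abs_le] at h
  rw [min_eq_right h.2, max_eq_right h.1]

/-- Evaluation of the convergent sequence `q 1 ← q 2, q 3, …` at `q 0`, where the index `k` is
coded by `1 / (k + 1)` and the limit by `0`. -/
noncomputable def evalSeq (q : ℕ → unitInterval) : ℝ :=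
  q 1 + ∑' k : ℕ, tent k (q 0) * clip ((1 / 2 : ℝ) ^ k) ((q (k + 2) : ℝ) - q 1)

theorem continuous_evalSeq : Continuous evalSeq := by
  unfold evalSeq
  refine Continuous.add (continuous_subtype_val.comp (continuous_apply 1)) ?_
  refine continuous_tsum (u := fun k : ℕ => (1 / 2 : ℝ) ^ k) ?_ summable_geometric_two ?_
  · intro k
    refine Continuous.mul ((continuous_tent k).comp
      (continuous_subtype_val.comp (continuous_apply 0))) ((continuous_clip _).comp ?_)
    exact (continuous_subtype_val.comp (continuous_apply (k + 2))).sub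
      (continuous_subtype_val.comp (continuous_apply 1))
  · intro k q
    rw [norm_mul, Real.norm_eq_abs, Real.norm_eq_abs, abs_of_nonneg (tent_nonneg _ _)]
    have h1 := abs_clip_le (r := (1 / 2 : ℝ) ^ k) (by positivity) ((q (k + 2) : ℝ) - q 1)
    have h2 := tent_le_one k (q 0)
    have h3 := tent_nonneg k (q 0)
    have h4 := abs_nonneg (clip ((1 / 2 : ℝ) ^ k) ((q (k + 2) : ℝ) - q 1))
    nlinarith

theorem evalSeq_zero {q : ℕ → unitInterval} (h : (q 0 : ℝ) = 0) : evalSeq q = q 1 := by
  unfold evalSeq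
  have : ∀ k : ℕ, tent k (q 0) * clip ((1 / 2 : ℝ) ^ k) ((q (k + 2) : ℝ) - q 1) = 0 := by
    intro k
    rw [h, tent_zero, zero_mul]
  simp only [this, tsum_zero, add_zero]

theorem evalSeq_index {q : ℕ → unitInterval} {k : ℕ} (h : (q 0 : ℝ) = 1 / (k + 1))
    (hk : |(q (k + 2) : ℝ) - q 1| ≤ (1 / 2 : ℝ) ^ k) : evalSeq q = q (k + 2) := by
  unfold evalSeq
  rw [tsum_eq_single k]
  · rw [h, tent_self, one_mul, clip_of_abs_le hk]
    ring
  · intro j hj
    rw [h, tent_ne hj.symm, zero_mul]

/-! ### Maps onto the unit interval which are not real quotient maps -/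

/-- If there is no cosmic open quotient then no map onto the unit interval is real quotient. -/
theorem exists_wild_function {X : Type u} [TopologicalSpace X] (hno : ¬ HasCosmicOpenQuotient X)
    (g : X → unitInterval) (hg : Continuous g) (hs : Function.Surjective g) :
    ∃ (G : unitInterval → ℝ) (s : unitInterval) (y : ℕ → unitInterval) (ε : ℝ),
      Continuous (G ∘ g) ∧ 0 < ε ∧ (∀ k, |(y k : ℝ) - s| ≤ (1 / 2 : ℝ) ^ k) ∧
      ∀ k, ε ≤ |G (y k) - G s| := by
  have h1 : ∃ G : unitInterval → ℝ, Continuous (G ∘ g) ∧ ¬ Continuous G := by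
    by_contra hcon
    push Not at hcon
    apply hno
    refine hasCosmicOpenQuotient_of_network (S := Icc (0:ℝ) 1) g
      (continuous_subtype_val.comp hg) hs (Icc_infinite zero_lt_one) ?_
    have hle : (inferInstance : TopologicalSpace (Icc (0:ℝ) 1)) ≤ realQuotient (S := Icc (0:ℝ) 1) g :=
      le_iInf fun φ => continuous_iff_le_induced.mp (hcon φ.1 φ.2)
    refine ⟨TopologicalSpace.countableBasis (Icc (0:ℝ) 1),
      TopologicalSpace.countable_countableBasis _, ?_⟩
    intro x U hU hx
    have hU' : IsOpen U := hle U hU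
    obtain ⟨B, hB1, hB2, hB3⟩ :=
      (TopologicalSpace.isBasis_countableBasis (Icc (0:ℝ) 1)).exists_subset_of_mem_open hx hU'
    exact ⟨B, hB1, hB2, hB3⟩
  obtain ⟨G, hGc, hG⟩ := h1
  rw [continuous_iff_continuousAt] at hG
  push Not at hG
  obtain ⟨s, hs⟩ := hG
  rw [Metric.continuousAt_iff] at hs
  push Not at hs
  obtain ⟨ε, hε, h⟩ := hs
  choose y hy1 hy2 using fun k : ℕ => h ((1 / 2 : ℝ) ^ k) (by positivity)
  refine ⟨G, s, y, ε, hGc, hε, fun k => ?_, fun k => ?_⟩
  · have := (hy1 k).le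
    rwa [Subtype.dist_eq, Real.dist_eq] at this
  · have := hy2 k
    rwa [Real.dist_eq] at this

/-- A big subspace of a space without cosmic open quotients has a relatively closed subspace
which maps onto the Baire space. -/
theorem exists_baire_piece {X : Type u} [TopologicalSpace X] (hno : ¬ HasCosmicOpenQuotient X)
    (C : Set X) (hC : Big C) : ∃ F : Set X, IsClosed F ∧ MapsOntoBaire (C ∩ F) := by
  classical
  obtain ⟨f, hf, hfC⟩ := hC
  have hfC' : ∀ q : ℕ → unitInterval, ∃ x ∈ C, f x = q := by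
    intro q
    have : q ∈ f '' C := by rw [hfC]; trivial
    exact this
  let fn : ℕ → X → (ℕ → unitInterval) := fun n x j => f x (Nat.pair n j)
  have hfn : ∀ n, Continuous (fn n) := fun n =>
    continuous_pi fun j => (continuous_apply (Nat.pair n j)).comp hf
  let g : ℕ → X → unitInterval := fun n x => projIcc (0:ℝ) 1 zero_le_one (evalSeq (fn n x))
  have hg : ∀ n, Continuous (g n) := fun n =>
    continuous_projIcc.comp (continuous_evalSeq.comp (hfn n))
  have hgs : ∀ n, Function.Surjective (g n) := by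
    intro n v
    obtain ⟨x, _, hx⟩ := hfC' (fun m => if (Nat.unpair m).2 = 0 then 0 else v)
    refine ⟨x, ?_⟩
    have h0 : fn n x 0 = 0 := by
      simp only [fn, hx, Nat.unpair_pair, if_true]
    have h1 : fn n x 1 = v := by
      simp only [fn, hx, Nat.unpair_pair, one_ne_zero, if_false]
    show projIcc (0:ℝ) 1 zero_le_one (evalSeq (fn n x)) = v
    rw [evalSeq_zero (by rw [h0]; rfl), h1]
    exact projIcc_val zero_le_one v
  choose G s y ε hGc hε hy hGy using fun n => exists_wild_function hno (g n) (hg n) (hgs n)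
  -- the coding of `ω + 1`
  let pt : ℕ → ℝ := fun k => 1 / ((k : ℝ) + 1)
  have hZ : IsClosed (insert (0:ℝ) (range pt)) :=
    (tendsto_one_div_add_atTop_nhds_zero_nat (𝕜 := ℝ)).isCompact_insert_range.isClosed
  let F : Set X := ⋂ n, ({x | (f x (Nat.pair n 0) : ℝ) ∈ insert (0:ℝ) (range pt)} ∩
    {x | f x (Nat.pair n 1) = s n} ∩ ⋂ k, {x | f x (Nat.pair n (k + 2)) = y n k})
  have hcoord : ∀ m, Continuous fun x => f x m := fun m => (continuous_apply m).comp hf
  have hF : IsClosed F := by
    refine isClosed_iInter fun n => IsClosed.inter (IsClosed.inter ?_ ?_) ?_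
    · exact hZ.preimage (continuous_subtype_val.comp (hcoord _))
    · exact isClosed_eq (hcoord _) continuous_const
    · exact isClosed_iInter fun k => isClosed_eq (hcoord _) continuous_const
  have hF0 : ∀ x ∈ F, ∀ n, (f x (Nat.pair n 0) : ℝ) = 0 ∨
      ∃ k : ℕ, (f x (Nat.pair n 0) : ℝ) = 1 / (k + 1) := by
    intro x hx n
    rcases (mem_iInter.mp hx n).1.1 with h | ⟨k, hk⟩
    · exact Or.inl h
    · exact Or.inr ⟨k, hk.symm⟩
  have hF1 : ∀ x ∈ F, ∀ n, f x (Nat.pair n 1) = s n := fun x hx n => (mem_iInter.mp hx n).1.2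
  have hF2 : ∀ x ∈ F, ∀ n k, f x (Nat.pair n (k + 2)) = y n k :=
    fun x hx n k => mem_iInter.mp (mem_iInter.mp hx n).2 k
  have hgF0 : ∀ x ∈ F, ∀ n, (f x (Nat.pair n 0) : ℝ) = 0 → g n x = s n := by
    intro x hx n h
    show projIcc (0:ℝ) 1 zero_le_one (evalSeq (fn n x)) = s n
    rw [evalSeq_zero h]
    show projIcc (0:ℝ) 1 zero_le_one (f x (Nat.pair n 1) : ℝ) = s n
    rw [hF1 x hx n]
    exact projIcc_val zero_le_one _
  have hgF1 : ∀ x ∈ F, ∀ n k, (f x (Nat.pair n 0) : ℝ) = 1 / ((k : ℕ) + 1) → g n x = y n k := by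
    intro x hx n k h
    show projIcc (0:ℝ) 1 zero_le_one (evalSeq (fn n x)) = y n k
    rw [evalSeq_index (k := k) h ?_]
    · show projIcc (0:ℝ) 1 zero_le_one (f x (Nat.pair n (k + 2)) : ℝ) = y n k
      rw [hF2 x hx n k]
      exact projIcc_val zero_le_one _
    · show |(f x (Nat.pair n (k + 2)) : ℝ) - f x (Nat.pair n 1)| ≤ (1 / 2 : ℝ) ^ k
      rw [hF1 x hx n, hF2 x hx n k]
      exact hy n k
  let ψ : (C ∩ F : Set X) → (ℕ → ℕ) := fun x n =>
    if h : ∃ k : ℕ, (f x.1 (Nat.pair n 0) : ℝ) = 1 / (k + 1) then h.choose + 1 else 0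
  have hψ1 : ∀ (x : (C ∩ F : Set X)) (n k : ℕ), ψ x n = k + 1 ↔
      (f x.1 (Nat.pair n 0) : ℝ) = 1 / (k + 1) := by
    intro x n k
    have hinj : ∀ i j : ℕ, (1:ℝ) / (i + 1) = 1 / (j + 1) → i = j := by
      intro i j hij
      by_contra hne
      have h1 := tent_self j
      rw [← hij, tent_ne hne] at h1
      exact zero_ne_one h1
    constructor
    · intro h
      by_cases hex : ∃ k : ℕ, (f x.1 (Nat.pair n 0) : ℝ) = 1 / (k + 1)
      · simp only [ψ, dif_pos hex] at h
        have h2 := hex.choose_spec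
        have h3 : hex.choose = k := by omega
        rw [h3] at h2
        exact h2
      · simp only [ψ, dif_neg hex] at h
        omega
    · intro h
      have hex : ∃ k : ℕ, (f x.1 (Nat.pair n 0) : ℝ) = 1 / (k + 1) := ⟨k, h⟩
      simp only [ψ, dif_pos hex]
      exact congrArg (· + 1) (hinj _ _ (hex.choose_spec.symm.trans h))
  have hψ0 : ∀ (x : (C ∩ F : Set X)) (n : ℕ), ψ x n = 0 ↔ (f x.1 (Nat.pair n 0) : ℝ) = 0 := by
    intro x n
    constructor
    · intro h
      rcases hF0 x.1 x.2.2 n with h1 | ⟨k, hk⟩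
      · exact h1
      · rw [← hψ1] at hk
        omega
    · intro h
      by_contra hne
      obtain ⟨k, hk⟩ := Nat.exists_eq_succ_of_ne_zero hne
      rw [Nat.succ_eq_add_one, hψ1, h] at hk
      have : (0:ℝ) < 1 / ((k : ℝ) + 1) := by positivity
      linarith
  refine ⟨F, hF, ψ, ?_, ?_⟩
  · refine continuous_pi fun n => ?_
    rw [continuous_discrete_rng]
    intro m
    cases m with
    | zero =>
      have h1 : (fun x => ψ x n) ⁻¹' {0} =
          {x : (C ∩ F : Set X) | |G n (g n x.1) - G n (s n)| < ε n} := by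
        ext x
        simp only [mem_preimage, mem_singleton_iff, mem_ofPred_eq]
        rw [hψ0]
        constructor
        · intro h
          rw [hgF0 x.1 x.2.2 n h, sub_self, abs_zero]
          exact hε n
        · intro h
          rcases hF0 x.1 x.2.2 n with h1 | ⟨k, hk⟩
          · exact h1
          · rw [hgF1 x.1 x.2.2 n k hk] at h
            exact absurd h (not_lt.mpr (hGy n k))
      rw [h1]
      have h2 : Continuous fun x : (C ∩ F : Set X) => G n (g n x.1) :=
        (hGc n).comp continuous_subtype_val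
      exact isOpen_lt (h2.sub continuous_const).abs continuous_const
    | succ k =>
      have h1 : (fun x => ψ x n) ⁻¹' {k + 1} =
          {x : (C ∩ F : Set X) | 0 < tent k (f x.1 (Nat.pair n 0))} := by
        ext x
        simp only [mem_preimage, mem_singleton_iff, mem_ofPred_eq]
        rw [hψ1]
        constructor
        · intro h
          rw [h, tent_self]
          exact zero_lt_one
        · intro h
          rcases hF0 x.1 x.2.2 n with h1 | ⟨j, hj⟩
          · rw [h1, tent_zero] at h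
            exact absurd h (lt_irrefl _)
          · by_cases hjk : j = k
            · rw [hj, hjk]
            · rw [hj, tent_ne hjk] at h
              exact absurd h (lt_irrefl _)
      rw [h1]
      have h2 : Continuous fun x : (C ∩ F : Set X) => tent k (f x.1 (Nat.pair n 0)) :=
        (continuous_tent k).comp (continuous_subtype_val.comp
          ((hcoord _).comp continuous_subtype_val))
      exact isOpen_lt continuous_const h2
  · intro w
    have hmem : ∀ k : ℕ, (1:ℝ) / (k + 1) ∈ Icc (0:ℝ) 1 := by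
      intro k
      refine ⟨by positivity, ?_⟩
      rw [div_le_one (by positivity)]
      have : (0:ℝ) ≤ k := Nat.cast_nonneg k
      linarith
    let q : ℕ → unitInterval := fun m =>
      if (Nat.unpair m).2 = 0 then
        (if w (Nat.unpair m).1 = 0 then 0 else ⟨1 / (((w (Nat.unpair m).1 - 1 : ℕ) : ℝ) + 1),
          hmem _⟩)
      else if (Nat.unpair m).2 = 1 then s (Nat.unpair m).1
      else y (Nat.unpair m).1 ((Nat.unpair m).2 - 2)
    obtain ⟨x, hxC, hxq⟩ := hfC' q
    have hq0 : ∀ n, w n = 0 → (f x (Nat.pair n 0) : ℝ) = 0 := by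
      intro n h
      rw [hxq]
      simp [q, h]
    have hq0' : ∀ n k, w n = k + 1 → (f x (Nat.pair n 0) : ℝ) = 1 / ((k : ℕ) + 1) := by
      intro n k h
      rw [hxq]
      simp [q, h]
    have hxF : x ∈ F := by
      refine mem_iInter.mpr fun n => ⟨⟨?_, ?_⟩, mem_iInter.mpr fun k => ?_⟩
      · show (f x (Nat.pair n 0) : ℝ) ∈ insert (0:ℝ) (range pt)
        rcases Nat.eq_zero_or_pos (w n) with h | h
        · rw [hq0 n h]
          exact mem_insert _ _
        · obtain ⟨k, hk⟩ := Nat.exists_eq_succ_of_ne_zero h.ne'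
          rw [hq0' n k hk]
          exact mem_insert_of_mem _ ⟨k, rfl⟩
      · show f x (Nat.pair n 1) = s n
        rw [hxq]
        simp [q]
      · show f x (Nat.pair n (k + 2)) = y n k
        rw [hxq]
        simp [q]
    refine ⟨⟨x, hxC, hxF⟩, ?_⟩
    funext n
    rcases Nat.eq_zero_or_pos (w n) with h | h
    · rw [h, hψ0]
      exact hq0 n h
    · obtain ⟨k, hk⟩ := Nat.exists_eq_succ_of_ne_zero h.ne'
      rw [hk, Nat.succ_eq_add_one, hψ1]
      exact hq0' n k hk

/-! ### Spaces with good subspaces -/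

/-- A Menger space has no closed subspace which maps onto the Baire space. -/
theorem IsMenger.not_mapsOntoBaire {X : Type u} [TopologicalSpace X] {C : Set X}
    (hC : IsMenger C) {E : Set X} (hE : IsClosed E) : ¬ MapsOntoBaire (C ∩ E) := by
  classical
  rintro ⟨ψ, hψ, hψs⟩
  have hopen : ∀ n k : ℕ, ∃ O : Set X, IsOpen O ∧
      ∀ x : (C ∩ E : Set X), x.1 ∈ O ↔ ψ x n = k := by
    intro n k
    have h1 : IsOpen ((fun x => ψ x n) ⁻¹' {k}) :=
      (isOpen_discrete {k}).preimage ((continuous_apply n).comp hψ)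
    obtain ⟨O, hO, hO'⟩ := isOpen_induced_iff.mp h1
    refine ⟨O, hO, fun x => ?_⟩
    have : x ∈ Subtype.val ⁻¹' O ↔ x ∈ (fun x => ψ x n) ⁻¹' {k} := by rw [hO']
    exact this
  choose O hO hOψ using hopen
  obtain ⟨V, hV, hcov⟩ := hC (fun n => range fun k => O n k ∪ Eᶜ) (by
    intro n
    refine ⟨?_, ?_⟩
    · rintro _ ⟨k, rfl⟩
      exact (hO n k).union hE.isOpen_compl
    · intro x hx
      by_cases hxE : x ∈ E
      · exact ⟨_, ⟨ψ ⟨x, hx, hxE⟩ n, rfl⟩, Or.inl ((hOψ n _ ⟨x, hx, hxE⟩).mpr rfl)⟩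
      · exact ⟨_, ⟨0, rfl⟩, Or.inr hxE⟩)
  have hbound : ∀ n, ∃ b : ℕ, ∀ W ∈ V n, ∃ k < b, W = O n k ∪ Eᶜ := by
    intro n
    have h1 : ∀ W : V n, ∃ k : ℕ, W.1 = O n k ∪ Eᶜ := by
      intro W
      obtain ⟨k, hk⟩ := (hV n).1 W.2
      exact ⟨k, hk.symm⟩
    choose κ hκ using h1
    have : Finite (V n) := (hV n).2
    obtain ⟨b, hb⟩ := (Set.finite_range κ).bddAbove
    exact ⟨b + 1, fun W hW => ⟨κ ⟨W, hW⟩, Nat.lt_succ_of_le (hb ⟨⟨W, hW⟩, rfl⟩), hκ ⟨W, hW⟩⟩⟩
  choose b hb using hbound
  obtain ⟨x, hx⟩ := hψs b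
  obtain ⟨n, hn⟩ := mem_iUnion.mp (hcov x.2.1)
  obtain ⟨W, hW, hxW⟩ := hn
  obtain ⟨k, hk, rfl⟩ := hb n W hW
  rcases hxW with h | h
  · have h1 := (hOψ n k x).mp h
    rw [hx] at h1
    omega
  · exact h x.2.2

/-- The good subspaces: Lindelof Sigma spaces, Menger spaces and, more generally, spaces without
a closed subspace that maps onto the Baire space. -/
def IsGood {X : Type u} [TopologicalSpace X] (C : Set X) : Prop :=
  IsLindelofSigma C ∨ IsMenger C ∨ ∀ E : Set X, IsClosed E → ¬ MapsOntoBaire (C ∩ E)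

theorem hasCosmicOpenQuotient_of_big_good {X : Type u} [TopologicalSpace X] {C : Set X}
    (hbig : Big C) (hC : IsGood C) : HasCosmicOpenQuotient X := by
  have hmain : (∀ E : Set X, IsClosed E → ¬ MapsOntoBaire (C ∩ E)) → HasCosmicOpenQuotient X := by
    intro h
    by_contra hno
    obtain ⟨F, hF, hF'⟩ := exists_baire_piece hno C hbig
    exact h F hF hF'
  rcases hC with hS | hM | h
  · obtain ⟨f, hf, hfK⟩ := hbig
    let g : X → ℝ := fun x => f x 0
    have hg : Continuous g := continuous_subtype_val.comp ((continuous_apply 0).comp hf)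
    have hgK : g '' C = Icc (0:ℝ) 1 := by
      apply subset_antisymm
      · rintro _ ⟨x, _, rfl⟩
        exact (f x 0).2
      · intro t ht
        have : (fun _ => ⟨t, ht⟩ : ℕ → unitInterval) ∈ f '' C := by rw [hfK]; trivial
        obtain ⟨x, hx, hxt⟩ := this
        refine ⟨x, hx, ?_⟩
        show ((f x 0 : unitInterval) : ℝ) = t
        rw [hxt]
    have hgr : range g = Icc (0:ℝ) 1 := by
      apply subset_antisymm
      · rintro _ ⟨x, rfl⟩
        exact (f x 0).2
      · rw [← hgK]
        exact image_subset_range g C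
    refine hasCosmicOpenQuotient_of_sigma g hg ?_ C hS (by rw [hgK, hgr])
    rw [hgr]
    exact Set.Icc_infinite zero_lt_one
  · exact hmain fun E hE => hM.not_mapsOntoBaire hE
  · exact hmain h

/-- The class theorem. -/
theorem hasCosmicOpenQuotient_of_good {X : Type u} [TopologicalSpace X] [LindelofSpace X]
    [T35Space X] [Infinite X]
    (h : ∀ F : Set X, IsClosed F → F.Nonempty → ∃ K ⊆ F, K.Nonempty ∧ IsClosed K ∧
      HasCountableOuterBase F K ∧ ∃ C : ℕ → Set X, K = ⋃ n, C n ∧ ∀ n, IsGood (C n)) :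
    HasCosmicOpenQuotient X := by
  by_cases hbig : Big (univ : Set X)
  · obtain ⟨K, hKc, hKne, hKcl, hKb, C, hKC, hC⟩ :=
      h (core X) (isClosed_core X) (core_nonempty hbig)
    by_cases hK : Big K
    · rw [hKC] at hK
      obtain ⟨n, hn⟩ := hK.exists_of_iUnion
      exact hasCosmicOpenQuotient_of_big_good hn (hC n)
    · exact hasCosmicOpenQuotient_of_small K hKc hKne hKcl hKb hK
  · obtain ⟨g, h1, h2, h3⟩ := exists_countable_range (infinite_clopens_of_not_big hbig)
    exact hasCosmicOpenQuotient_of_countable_range g h1 h2 h3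

end Pool.Agent.MP_5beb1e_gt
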