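import Pool.Agent.MP_5beb1e_gt.Defs

/-! A surjection along which real functions descend induces an open homomorphism of free abelian
topological groups. -/

open Set Topology

namespace Pool.Agent.MP_5beb1e_gt

universe u v

theorem continuous_of_freeTopology (X : Type u) [TopologicalSpace X] :
    @Continuous X (FreeAbelianGroup X) _ (freeTopology X)
      (FreeAbelianGroup.of : X → FreeAbelianGroup X) := by
  unfold freeTopology
  rw [AddGroupTopology.toTopologicalSpace_sInf]
  apply continuous_sInf_rng.mpr
  rintro _ ⟨t, ht, rfl⟩
  exact ht

theorem isTopologicalAddGroup_freeTopology (X : Type u) [TopologicalSpace X] :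
    @IsTopologicalAddGroup (FreeAbelianGroup X) (freeTopology X) _ :=
  (sInf {t : AddGroupTopology (FreeAbelianGroup X) |
    @Continuous X (FreeAbelianGroup X) _ t.toTopologicalSpace
      (FreeAbelianGroup.of : X → FreeAbelianGroup X)}).toIsTopologicalAddGroup

theorem freeTopology_le (X : Type u) [TopologicalSpace X]
    (t : AddGroupTopology (FreeAbelianGroup X))
    (ht : @Continuous X (FreeAbelianGroup X) _ t.toTopologicalSpace
      (FreeAbelianGroup.of : X → FreeAbelianGroup X)) :
    freeTopology X ≤ t.toTopologicalSpace := by
  unfold freeTopology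
  rw [AddGroupTopology.toTopologicalSpace_sInf]
  exact sInf_le ⟨t, ht, rfl⟩

/-- The homomorphism induced by a continuous map is continuous. -/
theorem continuous_map {X : Type u} {Y : Type v} [TopologicalSpace X] [TopologicalSpace Y]
    (f : X → Y) (hf : Continuous f) (F : FreeAbelianGroup X →+ FreeAbelianGroup Y)
    (hF : ∀ x, F (FreeAbelianGroup.of x) = FreeAbelianGroup.of (f x)) :
    @Continuous _ _ (freeTopology X) (freeTopology Y) F := by
  let tY := freeTopology Y
  have := isTopologicalAddGroup_freeTopology Y
  have h1 : @IsTopologicalAddGroup (FreeAbelianGroup X) (tY.induced F) _ :=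
    topologicalAddGroup_induced F
  have h2 : freeTopology X ≤ tY.induced F := by
    refine freeTopology_le X ⟨tY.induced F, h1⟩ ?_
    rw [continuous_induced_rng]
    have : (F ∘ FreeAbelianGroup.of : X → FreeAbelianGroup Y) = FreeAbelianGroup.of ∘ f := by
      funext x
      exact hF x
    rw [this]
    exact (continuous_of_freeTopology Y).comp hf
  exact continuous_iff_le_induced.mpr h2

/-- The coinduced topology along a surjective homomorphism is a group topology and the
homomorphism is open. -/
theorem coinduced_group {A : Type u} {B : Type v} [AddGroup A] [AddGroup B]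
    [t : TopologicalSpace A] [IsTopologicalAddGroup A] (F : A →+ B) (hF : Function.Surjective F) :
    @IsTopologicalAddGroup B (t.coinduced F) _ ∧ @IsOpenMap A B t (t.coinduced F) F := by
  let tB : TopologicalSpace B := t.coinduced F
  have hq : IsQuotientMap F := ⟨⟨rfl⟩, hF⟩
  have hopen : IsOpenMap F := by
    intro U hU
    rw [← hq.isOpen_preimage]
    have : F ⁻¹' (F '' U) = ⋃ k ∈ (F.ker : Set A), (fun x => x + k) ⁻¹' U := by
      ext x
      simp only [mem_preimage, mem_image, mem_iUnion, SetLike.mem_coe, AddMonoidHom.mem_ker,
        exists_prop]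
      constructor
      · rintro ⟨y, hy, hxy⟩
        refine ⟨-x + y, ?_, ?_⟩
        · rw [map_add, map_neg, hxy, neg_add_cancel]
        · rwa [add_neg_cancel_left]
      · rintro ⟨k, hk, hxk⟩
        refine ⟨x + k, hxk, ?_⟩
        rw [map_add, hk, add_zero]
    rw [this]
    exact isOpen_biUnion fun k _ => hU.preimage (continuous_add_const k)
  refine ⟨?_, hopen⟩
  have hprod : IsQuotientMap (Prod.map F F) :=
    (hopen.prodMap hopen).isQuotientMap (hq.continuous.prodMap hq.continuous) (hF.prodMap hF)
  have hadd : Continuous fun p : B × B => p.1 + p.2 := by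
    rw [hprod.continuous_iff]
    have : ((fun p : B × B => p.1 + p.2) ∘ Prod.map F F) = fun p : A × A => F (p.1 + p.2) := by
      funext p
      simp
    rw [this]
    exact hq.continuous.comp continuous_add
  have hneg : Continuous fun b : B => -b := by
    rw [hq.continuous_iff]
    have : ((fun b : B => -b) ∘ F) = fun a : A => F (-a) := by
      funext a
      simp
    rw [this]
    exact hq.continuous.comp continuous_neg
  exact { continuous_add := hadd, continuous_neg := hneg }

/-- If `f : X → Y` is a continuous surjection such that every real function on `Y` whose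
composition with `f` is continuous is itself continuous, then the induced homomorphism of free
abelian topological groups is open. -/
theorem isOpenMap_of_real_quotient {X : Type u} {Y : Type v} [TopologicalSpace X]
    [TopologicalSpace Y] (f : X → Y) (hsurj : Function.Surjective f)
    (hq : ∀ φ : Y → ℝ, Continuous (φ ∘ f) → Continuous φ)
    (F : FreeAbelianGroup X →+ FreeAbelianGroup Y)
    (hF : ∀ x, F (FreeAbelianGroup.of x) = FreeAbelianGroup.of (f x)) :
    Function.Surjective F ∧ @IsOpenMap _ _ (freeTopology X) (freeTopology Y) F := by
  have hFsurj : Function.Surjective F := by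
    intro b
    induction b using FreeAbelianGroup.induction_on with
    | zero => exact ⟨0, map_zero F⟩
    | of y =>
      obtain ⟨x, rfl⟩ := hsurj y
      exact ⟨_, hF x⟩
    | neg y ih =>
      obtain ⟨a, ha⟩ := ih
      exact ⟨-a, by rw [map_neg, ha]⟩
    | add b c hb hc =>
      obtain ⟨a, ha⟩ := hb
      obtain ⟨a', ha'⟩ := hc
      exact ⟨a + a', by rw [map_add, ha, ha']⟩
  refine ⟨hFsurj, ?_⟩
  let tX := freeTopology X
  have := isTopologicalAddGroup_freeTopology X
  obtain ⟨h1, h2⟩ := coinduced_group F hFsurj
  have h3 : freeTopology Y ≤ tX.coinduced F := by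
    refine freeTopology_le Y ⟨tX.coinduced F, h1⟩ ?_
    -- the inclusion of `Y` is continuous for the quotient topology
    let tB : TopologicalSpace (FreeAbelianGroup Y) := tX.coinduced F
    have : IsTopologicalAddGroup (FreeAbelianGroup Y) := h1
    let : UniformSpace (FreeAbelianGroup Y) := IsTopologicalAddGroup.rightUniformSpace _
    have hcr : CompletelyRegularSpace (FreeAbelianGroup Y) := inferInstance
    have hFc : Continuous F := continuous_coinduced_rng
    rw [continuous_def]
    intro U hU
    rw [isOpen_iff_forall_mem_open]
    intro y hy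
    obtain ⟨φ, hφc, hφ0, hφ1⟩ := hcr.completely_regular (FreeAbelianGroup.of y) Uᶜ
      hU.isClosed_compl (fun h => h hy)
    let ψ : Y → ℝ := fun z => (φ (FreeAbelianGroup.of z) : ℝ)
    have hψ : Continuous ψ := by
      apply hq
      have : ψ ∘ f = fun x => ((φ (F (FreeAbelianGroup.of x)) : unitInterval) : ℝ) := by
        funext x
        simp only [ψ, Function.comp_apply, hF]
      rw [this]
      exact continuous_subtype_val.comp (hφc.comp (hFc.comp (continuous_of_freeTopology X)))
    refine ⟨{z | ψ z < 1}, ?_, isOpen_lt hψ continuous_const, ?_⟩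
    · intro z hz
      by_contra hcon
      have h4 : φ (FreeAbelianGroup.of z) = 1 := hφ1 hcon
      have h5 : ψ z = 1 := by simp [ψ, h4]
      exact absurd h5 (ne_of_lt hz)
    · show ψ y < 1
      simp [ψ, hφ0]
  intro U hU
  exact h3 _ (h2 U hU)

end Pool.Agent.MP_5beb1e_gt
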