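import Pool.Agent.MP_5beb1e_gt.Quotient

/-! Real quotient topologies on sets of reals, and networks from Lindelof Sigma subspaces. -/

open Set Topology

namespace Pool.Agent.MP_5beb1e_gt

universe u v

/-- The weak topology generated by all real functions that become continuous after composition
with `g`. -/
@[reducible] def realQuotient {X : Type u} [TopologicalSpace X] {S : Type v} (g : X → S) :
    TopologicalSpace S :=
  ⨅ φ : {φ : S → ℝ // Continuous (φ ∘ g)}, TopologicalSpace.induced φ.1 inferInstance

theorem continuous_realQuotient_iff {X : Type u} [TopologicalSpace X] {S : Type v} (g : X → S)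
    (φ : S → ℝ) : @Continuous S ℝ (realQuotient g) _ φ ↔ Continuous (φ ∘ g) := by
  constructor
  · intro h
    have hg : @Continuous X S _ (realQuotient g) g := by
      rw [continuous_iInf_rng]
      intro ψ
      rw [continuous_induced_rng]
      exact ψ.2
    exact @Continuous.comp X S ℝ _ (realQuotient g) _ g φ h hg
  · intro h
    exact continuous_iInf_dom (i := ⟨φ, h⟩) continuous_induced_dom

theorem continuous_to_realQuotient {X : Type u} [TopologicalSpace X] {S : Type v} (g : X → S) :
    @Continuous X S _ (realQuotient g) g := by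
  rw [continuous_iInf_rng]
  intro ψ
  rw [continuous_induced_rng]
  exact ψ.2

theorem completelyRegular_realQuotient {X : Type u} [TopologicalSpace X] {S : Type v}
    (g : X → S) : @CompletelyRegularSpace S (realQuotient g) := by
  apply completelyRegularSpace_iInf
  intro φ
  exact completelyRegularSpace_induced inferInstance _

theorem t35_realQuotient {X : Type u} [TopologicalSpace X] {S : Set ℝ}
    (g : X → S) (hg : Continuous fun x => (g x : ℝ)) : @T35Space S (realQuotient g) := by
  let t := realQuotient g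
  have hcr : CompletelyRegularSpace S := completelyRegular_realQuotient g
  have hval : Continuous (fun s : S => (s : ℝ)) :=
    (continuous_realQuotient_iff g (fun s : S => (s : ℝ))).mpr hg
  have ht2 : T2Space S := T2Space.of_injective_continuous Subtype.val_injective hval
  exact { }

/-- The Euclidean topology is coarser than the real quotient topology. -/
theorem realQuotient_le {X : Type u} [TopologicalSpace X] {S : Set ℝ}
    (g : X → S) (hg : Continuous fun x => (g x : ℝ)) :
    realQuotient g ≤ (inferInstance : TopologicalSpace S) := by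
  have hval := (continuous_realQuotient_iff g (fun s : S => (s : ℝ))).mpr hg
  exact continuous_iff_le_induced.mp hval

/-- The main criterion. -/
theorem hasCosmicOpenQuotient_of_network {X : Type u} [TopologicalSpace X] {S : Set ℝ}
    (g : X → S) (hg : Continuous fun x => (g x : ℝ)) (hsurj : Function.Surjective g)
    (hS : S.Infinite) (hnet : @HasCountableNetwork S (realQuotient g)) :
    HasCosmicOpenQuotient X := by
  let t := realQuotient g
  refine ⟨S, t, t35_realQuotient g hg, hS.to_subtype, hnet, FreeAbelianGroup.map g, ?_⟩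
  have hF : ∀ x, FreeAbelianGroup.map g (FreeAbelianGroup.of x) = FreeAbelianGroup.of (g x) :=
    fun x => FreeAbelianGroup.map_of_apply x
  obtain ⟨h1, h2⟩ := isOpenMap_of_real_quotient g hsurj
    (fun φ hφ => (continuous_realQuotient_iff g φ).mpr hφ) (FreeAbelianGroup.map g) hF
  exact ⟨h1, continuous_map g (continuous_to_realQuotient g) _ hF, h2⟩

/-- Countable infinite range. -/
theorem hasCosmicOpenQuotient_of_countable_range {X : Type u} [TopologicalSpace X] (g : X → ℝ)
    (hg : Continuous g) (hinf : (range g).Infinite) (hcount : (range g).Countable) :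
    HasCosmicOpenQuotient X := by
  refine hasCosmicOpenQuotient_of_network (S := range g) (rangeFactorization g) hg
    rangeFactorization_surjective hinf ?_
  have : Countable (range g) := hcount.to_subtype
  refine ⟨range fun s : range g => {s}, countable_range _, ?_⟩
  intro x U _ hx
  exact ⟨{x}, ⟨x, rfl⟩, rfl, singleton_subset_iff.mpr hx⟩

/-- Networks from Lindelof Sigma subspaces. -/
theorem exists_network_of_sigma {X : Type u} [TopologicalSpace X] (C : Set X)
    (hC : IsLindelofSigma C) {S : Set ℝ} (g : X → S) (hg : Continuous fun x => (g x : ℝ)) :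
    ∃ N : Set (Set S), N.Countable ∧ ∀ x ∈ C, ∀ U : Set S, @IsOpen S (realQuotient g) U →
      g x ∈ U → ∃ A ∈ N, g x ∈ A ∧ A ⊆ U := by
  obtain ⟨Z, _, M, _, p, h, _, hM, hMs, ⟨hp, hps, hpc, hpk⟩, hh, hhs⟩ := hC
  let ψ : Z → S := fun z => g (h z).1
  have hψc : @Continuous Z S _ (realQuotient g) ψ :=
    @Continuous.comp Z X S _ _ (realQuotient g) (fun z => (h z).1) g
      (continuous_to_realQuotient g) (continuous_subtype_val.comp hh)
  have hψe : Continuous ψ := by
    have hg' : Continuous g := continuous_induced_rng.mpr hg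
    exact hg'.comp (continuous_subtype_val.comp hh)
  let _ := TopologicalSpace.metrizableSpaceMetric M
  have hM2 : SecondCountableTopology M := UniformSpace.secondCountable_of_separable M
  refine ⟨(fun q : Set M × Set S => ψ '' (p ⁻¹' q.1) ∩ q.2) ''
    (TopologicalSpace.countableBasis M ×ˢ TopologicalSpace.countableBasis S), ?_, ?_⟩
  · exact ((TopologicalSpace.countable_countableBasis M).prod
      (TopologicalSpace.countable_countableBasis S)).image _
  · intro x hx U hU hxU
    obtain ⟨z, hz⟩ := hhs ⟨x, hx⟩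
    have hψz : ψ z = g x := by simp only [ψ, hz]
    let K : Set Z := p ⁻¹' {p z}
    have hK : IsCompact K := hpk (p z)
    have hψU : IsOpen (ψ ⁻¹' U) := @IsOpen.preimage Z S _ (realQuotient g) ψ hψc U hU
    have hL : IsCompact (K \ ψ ⁻¹' U) := hK.diff hψU
    have hLc : IsClosed (ψ '' (K \ ψ ⁻¹' U)) := (hL.image hψe).isClosed
    have hyL : ψ z ∉ ψ '' (K \ ψ ⁻¹' U) := by
      rintro ⟨k, ⟨_, hk⟩, hkz⟩
      apply hk
      show ψ k ∈ U
      rw [hkz, hψz]
      exact hxU
    obtain ⟨F, hF1, hF2, hF3⟩ := exists_mem_nhds_isClosed_subset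
      (hLc.isOpen_compl.mem_nhds hyL)
    -- tube
    have hW : IsOpen (ψ ⁻¹' U ∪ ψ ⁻¹' Fᶜ) := hψU.union (hF2.isOpen_compl.preimage hψe)
    have hKW : ∀ k, p k = p z → k ∈ ψ ⁻¹' U ∪ ψ ⁻¹' Fᶜ := by
      intro k hk
      by_cases hkU : k ∈ ψ ⁻¹' U
      · exact Or.inl hkU
      · right
        intro hkF
        exact hF3 hkF ⟨k, ⟨hk, hkU⟩, rfl⟩
    have hB : ((p '' (ψ ⁻¹' U ∪ ψ ⁻¹' Fᶜ)ᶜ)ᶜ) ∈ 𝓝 (p z) := by
      refine (hpc _ hW.isClosed_compl).isOpen_compl.mem_nhds ?_
      rintro ⟨k, hk, hkz⟩
      exact hk (hKW k hkz)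
    obtain ⟨B, hB1, hB2, hB3⟩ :=
      (TopologicalSpace.isBasis_countableBasis M).mem_nhds_iff.mp hB
    obtain ⟨J, hJ1, hJ2, hJ3⟩ :=
      (TopologicalSpace.isBasis_countableBasis S).mem_nhds_iff.mp hF1
    refine ⟨ψ '' (p ⁻¹' B) ∩ J, ⟨(B, J), ⟨hB1, hJ1⟩, rfl⟩, ?_, ?_⟩
    · rw [← hψz]
      exact ⟨⟨z, hB2, rfl⟩, hJ2⟩
    · rintro _ ⟨⟨k, hk, rfl⟩, hkJ⟩
      by_contra hcon
      have h1 : p k ∈ (p '' (ψ ⁻¹' U ∪ ψ ⁻¹' Fᶜ)ᶜ)ᶜ := hB3 hk
      apply h1
      refine ⟨k, ?_, rfl⟩
      rintro (h2 | h2)
      · exact hcon h2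
      · exact h2 (hJ3 hkJ)

/-- The criterion with a Lindelof Sigma subspace on which `g` attains all its values. -/
theorem hasCosmicOpenQuotient_of_sigma {X : Type u} [TopologicalSpace X] (g : X → ℝ)
    (hg : Continuous g) (hinf : (range g).Infinite) (C : Set X) (hC : IsLindelofSigma C)
    (hgC : g '' C = range g) : HasCosmicOpenQuotient X := by
  refine hasCosmicOpenQuotient_of_network (S := range g) (rangeFactorization g) hg
    rangeFactorization_surjective hinf ?_
  obtain ⟨N, hN, h⟩ := exists_network_of_sigma C hC (S := range g) (rangeFactorization g) hg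
  refine ⟨N, hN, ?_⟩
  rintro ⟨s, hs⟩ U hU hsU
  have hs' := hs
  rw [← hgC] at hs'
  obtain ⟨x, hx, rfl⟩ := hs'
  exact h x hx U hU hsU

end Pool.Agent.MP_5beb1e_gt
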