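import Pool.Agent.MP_5beb1e_gt.Clopen

/-! Reduction of the question to connected Lindelof topologies on the unit interval finer than
the usual one. -/

open Set Topology

namespace Pool.Agent.MP_5beb1e_gt

universe u v

/-- If there are only finitely many clopen sets in an infinite space then some atom of the
algebra of clopen sets has two points. -/
theorem exists_atom_two {X : Type u} [TopologicalSpace X] [Infinite X]
    (hfin : {D : Set X | IsClopen D}.Finite) :
    ∃ Q : Set X, IsClopen Q ∧ (∀ D : Set X, IsClopen D → D ⊆ Q → D = ∅ ∨ D = Q) ∧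
      ∃ x0 ∈ Q, ∃ x1 ∈ Q, x0 ≠ x1 := by
  classical
  let Q : X → Set X := fun x => ⋂ D ∈ {D : Set X | IsClopen D ∧ x ∈ D}, D
  have hfin' : ∀ x, {D : Set X | IsClopen D ∧ x ∈ D}.Finite := fun x =>
    hfin.subset fun D hD => hD.1
  have hQ : ∀ x, IsClopen (Q x) := fun x =>
    (hfin' x).isClopen_biInter fun D hD => hD.1
  have hxQ : ∀ x, x ∈ Q x := fun x => mem_iInter₂.mpr fun D hD => hD.2
  have hQmin : ∀ x D, IsClopen D → x ∈ D → Q x ⊆ D := fun x D hD hx =>
    biInter_subset_of_mem (show D ∈ {D : Set X | IsClopen D ∧ x ∈ D} from ⟨hD, hx⟩)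
  have hatom : ∀ x, ∀ D : Set X, IsClopen D → D ⊆ Q x → D = ∅ ∨ D = Q x := by
    intro x D hD hDQ
    by_cases hx : x ∈ D
    · exact Or.inr (subset_antisymm hDQ (hQmin x D hD hx))
    · left
      have h1 : Q x ⊆ Dᶜ := hQmin x Dᶜ hD.compl hx
      rw [eq_empty_iff_forall_notMem]
      intro z hz
      exact h1 (hDQ hz) hz
  have hQfin : (range Q).Finite := hfin.subset (by rintro _ ⟨x, rfl⟩; exact hQ x)
  have hninj : ¬ Function.Injective Q := by
    intro hinj
    exact (Set.infinite_range_of_injective hinj) hQfin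
  simp only [Function.Injective, not_forall] at hninj
  obtain ⟨x, y, hxy, hne⟩ := hninj
  exact ⟨Q x, hQ x, hatom x, x, hxQ x, y, by rw [hxy]; exact hxQ y, hne⟩

/-- Composition of open quotients. -/
theorem HasCosmicOpenQuotient.of_openHom {X : Type u} {Y : Type v} [TopologicalSpace X]
    [TopologicalSpace Y] (h : HasCosmicOpenQuotient Y)
    (F : FreeAbelianGroup X →+ FreeAbelianGroup Y) (hs : Function.Surjective F)
    (hc : @Continuous _ _ (freeTopology X) (freeTopology Y) F)
    (ho : @IsOpenMap _ _ (freeTopology X) (freeTopology Y) F) : HasCosmicOpenQuotient X := by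
  obtain ⟨Z, tZ, h1, h2, h3, f, hf1, hf2, hf3⟩ := h
  refine ⟨Z, tZ, h1, h2, h3, f.comp F, hf1.comp hs, ?_, ?_⟩
  · exact @Continuous.comp _ _ _ (freeTopology X) (freeTopology Y) (freeTopology Z) F f hf2 hc
  · exact (show @IsOpenMap _ _ (freeTopology X) (freeTopology Z) (f ∘ F) from fun U hU => by
      rw [image_comp]
      exact hf3 _ (ho U hU))

theorem reduction
    (h : ∀ τ : TopologicalSpace unitInterval,
      @Continuous unitInterval ℝ τ _ (fun t => (t : ℝ)) →
      @T35Space _ τ → @LindelofSpace _ τ → @ConnectedSpace _ τ → @HasCosmicOpenQuotient _ τ)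
    (X : Type u) [TopologicalSpace X] [LindelofSpace X] [T35Space X] [Infinite X] :
    HasCosmicOpenQuotient X := by
  classical
  by_cases hfin : {D : Set X | IsClopen D}.Infinite
  · obtain ⟨g', h1, h2, h3⟩ := exists_countable_range hfin
    exact hasCosmicOpenQuotient_of_countable_range g' h1 h2 h3
  rw [not_infinite] at hfin
  obtain ⟨Q, hQ, hatom, x0, hx0, x1, hx1, h01⟩ := exists_atom_two hfin
  obtain ⟨G, hG, hG0, hG1⟩ := CompletelyRegularSpace.completely_regular x0 {x1}
    isClosed_singleton h01
  have hG1' : G x1 = 1 := hG1 rfl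
  have hGe : Continuous fun x => (G x : ℝ) := continuous_subtype_val.comp hG
  -- the image of the atom is everything
  have hGQ : ∀ m : unitInterval, ∃ x ∈ Q, G x = m := by
    intro m
    by_contra hcon
    push Not at hcon
    have h1 : IsClopen (Q ∩ G ⁻¹' (Ici m)) := by
      refine ⟨hQ.isClosed.inter (isClosed_Ici.preimage hG), ?_⟩
      have : Q ∩ G ⁻¹' (Ici m) = Q ∩ G ⁻¹' (Ioi m) := by
        ext x
        simp only [mem_inter_iff, mem_preimage, mem_Ici, mem_Ioi]
        constructor
        · rintro ⟨h, h'⟩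
          exact ⟨h, lt_of_le_of_ne h' (hcon x h).symm⟩
        · rintro ⟨h, h'⟩
          exact ⟨h, h'.le⟩
      rw [this]
      exact hQ.isOpen.inter (isOpen_Ioi.preimage hG)
    rcases hatom _ h1 inter_subset_left with h | h
    · have : x1 ∈ Q ∩ G ⁻¹' (Ici m) := ⟨hx1, by rw [mem_preimage, hG1']; exact unitInterval.le_one'⟩
      rw [h] at this
      exact this
    · have h2 : x0 ∈ Q ∩ G ⁻¹' (Ici m) := by rw [h]; exact hx0
      have h3 : m ≤ G x0 := h2.2
      rw [hG0] at h3
      exact hcon x0 hx0 (by rw [hG0]; exact le_antisymm unitInterval.nonneg' h3)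
  have hGsurj : Function.Surjective G := fun m => by
    obtain ⟨x, _, hx⟩ := hGQ m
    exact ⟨x, hx⟩
  have hGc := continuous_to_realQuotient G
  have hcos : @HasCosmicOpenQuotient unitInterval (realQuotient G) := by
    refine h (realQuotient G)
      ((continuous_realQuotient_iff G (fun t : unitInterval => (t : ℝ))).mpr hGe)
      (t35_realQuotient (S := Icc 0 1) G hGe) ?_ ?_
    · let τ := realQuotient G
      refine ⟨?_⟩
      have h1 : @IsLindelof unitInterval τ (G '' univ) :=
        @IsLindelof.image X unitInterval _ τ univ G isLindelof_univ hGc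
      rwa [image_univ, hGsurj.range_eq] at h1
    · let τ := realQuotient G
      have hpre : @PreconnectedSpace unitInterval τ := by
        rw [@preconnectedSpace_iff_clopen unitInterval τ]
        intro D hD
        have h1 : IsClopen (G ⁻¹' D) := @IsClopen.preimage X unitInterval _ τ D hD G hGc
        rcases hatom _ (hQ.inter h1) inter_subset_left with h2 | h2
        · left
          rw [eq_empty_iff_forall_notMem]
          intro m hm
          obtain ⟨x, hx, rfl⟩ := hGQ m
          have : x ∈ Q ∩ G ⁻¹' D := ⟨hx, hm⟩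
          rw [h2] at this
          exact this
        · right
          rw [eq_univ_iff_forall]
          intro m
          obtain ⟨x, hx, rfl⟩ := hGQ m
          have : x ∈ Q ∩ G ⁻¹' D := by rw [h2]; exact hx
          exact this.2
      exact @ConnectedSpace.mk unitInterval τ hpre ⟨0⟩
  let τ := realQuotient G
  have hF : ∀ x, FreeAbelianGroup.map G (FreeAbelianGroup.of x) = FreeAbelianGroup.of (G x) :=
    fun x => FreeAbelianGroup.map_of_apply x
  obtain ⟨h1, h2⟩ := isOpenMap_of_real_quotient G hGsurj
    (fun φ hφ => (continuous_realQuotient_iff G φ).mpr hφ) (FreeAbelianGroup.map G) hF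
  exact hcos.of_openHom (FreeAbelianGroup.map G) h1 (continuous_map G hGc _ hF) h2

end Pool.Agent.MP_5beb1e_gt
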