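import Pool.Agent.MP_5beb1e_gt.Quotient

/-! Wild difference maps: open homomorphisms onto the free abelian topological group of the unit
interval. -/

open Set Topology Filter

namespace Pool.Agent.MP_5beb1e_gt

universe u v

/-- The homomorphism induced by a continuous map into a topological group is continuous. -/
theorem continuous_lift {X : Type u} [TopologicalSpace X] {G : Type v} [AddCommGroup G]
    [tG : TopologicalSpace G] [IsTopologicalAddGroup G] (φ : X → G) (hφ : Continuous φ) :
    @Continuous _ _ (freeTopology X) tG (FreeAbelianGroup.lift φ) := by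
  have h1 : @IsTopologicalAddGroup (FreeAbelianGroup X)
      (tG.induced (FreeAbelianGroup.lift φ)) _ := topologicalAddGroup_induced _
  have h2 : freeTopology X ≤ tG.induced (FreeAbelianGroup.lift φ) := by
    refine freeTopology_le X ⟨tG.induced (FreeAbelianGroup.lift φ), h1⟩ ?_
    rw [continuous_induced_rng]
    have : (FreeAbelianGroup.lift φ ∘ FreeAbelianGroup.of : X → G) = φ := by
      funext x
      simp
    rw [this]
    exact hφ
  exact continuous_iff_le_induced.mpr h2

/-- Inclusion of generators of the group on the unit interval. -/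
noncomputable def e (v : unitInterval) : FreeAbelianGroup unitInterval := FreeAbelianGroup.of v

/-- The second point of the pair. -/
noncomputable def second (s : ℝ) (p : unitInterval × unitInterval) : unitInterval :=
  Set.projIcc 0 1 zero_le_one ((p.1 : ℝ) + s * (2 * (p.2 : ℝ) - 1))

theorem second_zero (p : unitInterval × unitInterval) : second 0 p = p.1 := by
  unfold second
  rw [zero_mul, add_zero]
  exact Set.projIcc_of_mem _ _ |>.trans rfl

theorem second_exists {s : ℝ} (hs : 0 < s) (v v' : unitInterval) (h : |(v : ℝ) - v'| ≤ s) :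
    ∃ p : unitInterval × unitInterval, p.1 = v ∧ second s p = v' := by
  have h2 := abs_le.mp h
  refine ⟨(v, ⟨(((v' : ℝ) - v) / s + 1) / 2, ?_, ?_⟩), rfl, ?_⟩
  · have : -1 ≤ ((v' : ℝ) - v) / s := by
      rw [le_div_iff₀ hs]; linarith
    linarith
  · have : ((v' : ℝ) - v) / s ≤ 1 := by
      rw [div_le_iff₀ hs]; linarith
    linarith
  · unfold second
    have : (v : ℝ) + s * (2 * ((((v' : ℝ) - v) / s + 1) / 2) - 1) = v' := by
      field_simp
      ring
    simp only [this]
    exact Set.projIcc_val zero_le_one v'

theorem abs_second_sub {s : ℝ} (hs : 0 ≤ s) (p : unitInterval × unitInterval) :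
    |(second s p : ℝ) - p.1| ≤ s := by
  unfold second
  have h1 : ((Set.projIcc (0:ℝ) 1 zero_le_one (p.1 : ℝ)) : ℝ) = p.1 := by
    have := Set.projIcc_val (zero_le_one (α := ℝ)) p.1
    exact congrArg Subtype.val this
  have h2 : |((Set.projIcc (0:ℝ) 1 zero_le_one ((p.1 : ℝ) + s * (2 * (p.2 : ℝ) - 1)) : unitInterval) : ℝ)
      - ((Set.projIcc (0:ℝ) 1 zero_le_one (p.1 : ℝ) : unitInterval) : ℝ)| ≤
      |((p.1 : ℝ) + s * (2 * (p.2 : ℝ) - 1)) - p.1| := by
    have := (LipschitzWith.projIcc (zero_le_one (α := ℝ))).dist_le_mul
      ((p.1 : ℝ) + s * (2 * (p.2 : ℝ) - 1)) (p.1 : ℝ)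
    simpa [Real.dist_eq, Subtype.dist_eq] using this
  rw [h1] at h2
  refine h2.trans ?_
  have h3 := p.2.2.1
  have h4 := p.2.2.2
  have : (p.1 : ℝ) + s * (2 * (p.2 : ℝ) - 1) - p.1 = s * (2 * (p.2 : ℝ) - 1) := by ring
  rw [this, abs_mul, abs_of_nonneg hs]
  have : |2 * (p.2 : ℝ) - 1| ≤ 1 := by
    rw [abs_le]; constructor <;> linarith
  nlinarith

/-- The `k`-th difference. -/
noncomputable def delta {X : Type u} (h : ℕ → X → ℝ) (w : ℕ → X → unitInterval × unitInterval)
    (k : ℕ) (x : X) : FreeAbelianGroup unitInterval :=
  e (w k x).1 - e (second (h k x / (k + 1)) (w k x))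

theorem delta_eq_zero {X : Type u} (h : ℕ → X → ℝ) (w : ℕ → X → unitInterval × unitInterval)
    (k : ℕ) (x : X) (hx : h k x = 0) : delta h w k x = 0 := by
  unfold delta
  rw [hx, zero_div, second_zero, sub_self]

/-- The wild difference map. -/
noncomputable def wildSum {X : Type u} (h : ℕ → X → ℝ) (w : ℕ → X → unitInterval × unitInterval)
    (x : X) : FreeAbelianGroup unitInterval :=
  ∑ᶠ k, delta h w k x

theorem wildSum_eq {X : Type u} (h : ℕ → X → ℝ) (w : ℕ → X → unitInterval × unitInterval)
    (hdisj : ∀ j k x, j ≠ k → h j x = 0 ∨ h k x = 0) (k : ℕ) (x : X) (hx : h k x ≠ 0) :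
    wildSum h w x = delta h w k x := by
  unfold wildSum
  apply finsum_eq_single
  intro j hj
  rcases hdisj j k x hj with h1 | h1
  · exact delta_eq_zero h w j x h1
  · exact absurd h1 hx

theorem wildSum_eq_zero {X : Type u} (h : ℕ → X → ℝ) (w : ℕ → X → unitInterval × unitInterval)
    (x : X) (hx : ∀ k, h k x = 0) : wildSum h w x = 0 := by
  unfold wildSum
  have : (fun k => delta h w k x) = fun _ => 0 := by
    funext k
    exact delta_eq_zero h w k x (hx k)
  rw [this, finsum_zero]

/-- The partial sums. -/
noncomputable def partSum {X : Type u} (h : ℕ → X → ℝ) (w : ℕ → X → unitInterval × unitInterval)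
    (n : ℕ) (x : X) : FreeAbelianGroup unitInterval :=
  ∑ k ∈ Finset.range n, delta h w k x

theorem partSum_sub {X : Type u} (h : ℕ → X → ℝ) (w : ℕ → X → unitInterval × unitInterval)
    (hdisj : ∀ j k x, j ≠ k → h j x = 0 ∨ h k x = 0) (n : ℕ) (x : X) :
    wildSum h w x - partSum h w n x = 0 ∨
      ∃ k ≥ n, wildSum h w x - partSum h w n x = delta h w k x := by
  by_cases hx : ∃ k, h k x ≠ 0
  · obtain ⟨k, hk⟩ := hx
    rw [wildSum_eq h w hdisj k x hk]
    by_cases hkn : k < n
    · left
      have : partSum h w n x = delta h w k x := by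
        unfold partSum
        apply Finset.sum_eq_single_of_mem k (Finset.mem_range.mpr hkn)
        intro j _ hj
        rcases hdisj j k x hj with h1 | h1
        · exact delta_eq_zero h w j x h1
        · exact absurd h1 hk
      rw [this, sub_self]
    · right
      refine ⟨k, not_lt.mp hkn, ?_⟩
      have : partSum h w n x = 0 := by
        unfold partSum
        apply Finset.sum_eq_zero
        intro j hj
        have hjk : j ≠ k := by
          rintro rfl
          exact hkn (Finset.mem_range.mp hj)
        rcases hdisj j k x hjk with h1 | h1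
        · exact delta_eq_zero h w j x h1
        · exact absurd h1 hk
      rw [this, sub_zero]
  · push Not at hx
    left
    rw [wildSum_eq_zero h w x hx]
    have : partSum h w n x = 0 := by
      unfold partSum
      apply Finset.sum_eq_zero
      intro j _
      exact delta_eq_zero h w j x (hx j)
    rw [this, sub_zero]

/-- Small differences of generators are small in the free topology. -/
theorem small_difference (W : Set (FreeAbelianGroup unitInterval))
    (hW : W ∈ @nhds _ (freeTopology unitInterval) 0) :
    ∃ ε > 0, ∀ v v' : unitInterval, |(v : ℝ) - v'| < ε → e v - e v' ∈ W := by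
  let t := freeTopology unitInterval
  have hg := isTopologicalAddGroup_freeTopology unitInterval
  let _ : UniformSpace (FreeAbelianGroup unitInterval) :=
    IsTopologicalAddGroup.rightUniformSpace _
  have hc : Continuous e := continuous_of_freeTopology unitInterval
  have hu : UniformContinuous e := CompactSpace.uniformContinuous_of_continuous hc
  have h1 : {p : FreeAbelianGroup unitInterval × FreeAbelianGroup unitInterval |
      p.2 - p.1 ∈ W} ∈ uniformity (FreeAbelianGroup unitInterval) := by
    rw [uniformity_eq_comap_nhds_zero' (FreeAbelianGroup unitInterval)]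
    exact ⟨W, hW, fun p hp => by
      have h5 : p.2 + -p.1 ∈ W := hp
      rw [← sub_eq_add_neg] at h5
      exact h5⟩
  have h2 := hu h1
  rw [Filter.mem_map, Metric.mem_uniformity_dist] at h2
  obtain ⟨ε, hε, h3⟩ := h2
  refine ⟨ε, hε, ?_⟩
  intro v v' hv
  have h4 : dist v' v < ε := by
    rw [Subtype.dist_eq, Real.dist_eq, abs_sub_comm]
    exact hv
  exact h3 h4

theorem continuous_delta {X : Type u} [TopologicalSpace X] (h : ℕ → X → ℝ)
    (w : ℕ → X → unitInterval × unitInterval) (hh : ∀ k, Continuous (h k))
    (hw : ∀ k, Continuous (w k)) (k : ℕ) :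
    @Continuous _ _ _ (freeTopology unitInterval) (delta h w k) := by
  let t := freeTopology unitInterval
  have hg := isTopologicalAddGroup_freeTopology unitInterval
  have hc : Continuous e := continuous_of_freeTopology unitInterval
  unfold delta
  refine (hc.comp (continuous_fst.comp (hw k))).sub (hc.comp ?_)
  unfold second
  refine continuous_projIcc.comp ?_
  have h1 : Continuous fun x => (((w k x).1 : unitInterval) : ℝ) :=
    continuous_subtype_val.comp (continuous_fst.comp (hw k))
  have h2 : Continuous fun x => (((w k x).2 : unitInterval) : ℝ) :=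
    continuous_subtype_val.comp (continuous_snd.comp (hw k))
  have h3 := hh k
  fun_prop

/-- The wild difference map is continuous. -/
theorem continuous_wildSum {X : Type u} [TopologicalSpace X] (h : ℕ → X → ℝ)
    (w : ℕ → X → unitInterval × unitInterval) (hh : ∀ k, Continuous (h k))
    (h01 : ∀ k x, 0 ≤ h k x ∧ h k x ≤ 1)
    (hdisj : ∀ j k x, j ≠ k → h j x = 0 ∨ h k x = 0)
    (hw : ∀ k, Continuous (w k)) :
    @Continuous _ _ _ (freeTopology unitInterval) (wildSum h w) := by
  let t := freeTopology unitInterval
  have hg := isTopologicalAddGroup_freeTopology unitInterval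
  let _ : UniformSpace (FreeAbelianGroup unitInterval) :=
    IsTopologicalAddGroup.rightUniformSpace _
  have hlim : TendstoUniformly (partSum h w) (wildSum h w) atTop := by
    intro u hu
    rw [uniformity_eq_comap_nhds_zero' (FreeAbelianGroup unitInterval)] at hu
    obtain ⟨W, hW, hWu⟩ := hu
    have hW' : -W ∈ 𝓝 (0 : FreeAbelianGroup unitInterval) := by
      have := neg_mem_nhds_zero (FreeAbelianGroup unitInterval) hW
      exact this
    obtain ⟨ε, hε, hsmall⟩ := small_difference (-W) hW'
    obtain ⟨N, hN⟩ := exists_nat_one_div_lt hε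
    filter_upwards [eventually_ge_atTop N] with n hn x
    apply hWu
    show partSum h w n x + -wildSum h w x ∈ W
    have h1 : partSum h w n x + -wildSum h w x = -(wildSum h w x - partSum h w n x) := by abel
    rw [h1]
    rcases partSum_sub h w hdisj n x with h2 | ⟨k, hk, h2⟩
    · rw [h2, neg_zero]
      exact mem_of_mem_nhds hW
    · rw [h2]
      have h3 : delta h w k x ∈ -W := by
        unfold delta
        apply hsmall
        rw [abs_sub_comm]
        have hk0 : (0:ℝ) ≤ h k x / (k + 1) := div_nonneg (h01 k x).1 (by positivity)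
        refine lt_of_le_of_lt (abs_second_sub hk0 (w k x)) ?_
        calc h k x / (k + 1) ≤ 1 / (k + 1) := by
              apply div_le_div_of_nonneg_right (h01 k x).2
              positivity
          _ ≤ 1 / (N + 1) := by
              apply div_le_div_of_nonneg_left zero_le_one (by positivity)
              have : (N : ℝ) ≤ k := by exact_mod_cast hn.trans hk
              linarith
          _ < ε := hN
      exact h3
  refine hlim.continuous (Frequently.of_forall fun n => ?_)
  unfold partSum
  exact continuous_finsetSum _ fun k _ => continuous_delta h w hh hw k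

/-- Criterion: if no choice of fibres of the maps `w k` on the sets `h k = 1` is locally finite,
then the free abelian topological group on `X` has an open homomorphism onto that of the unit
interval. -/
theorem hasCosmicOpenQuotient_of_wild {X : Type u} [TopologicalSpace X] (h : ℕ → X → ℝ)
    (w : ℕ → X → unitInterval × unitInterval) (hh : ∀ k, Continuous (h k))
    (h01 : ∀ k x, 0 ≤ h k x ∧ h k x ≤ 1)
    (hdisj : ∀ j k x, j ≠ k → h j x = 0 ∨ h k x = 0)
    (hw : ∀ k, Continuous (w k))
    (hno : ∀ r : ℕ → unitInterval × unitInterval,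
      ¬ LocallyFinite fun k => {x | h k x = 1 ∧ w k x = r k}) :
    HasCosmicOpenQuotient X := by
  classical
  -- the map
  let φ : X → FreeAbelianGroup unitInterval := fun x => e 0 + wildSum h w x
  let F : FreeAbelianGroup X →+ FreeAbelianGroup unitInterval := FreeAbelianGroup.lift φ
  have hF : ∀ x, F (FreeAbelianGroup.of x) = φ x := fun x => FreeAbelianGroup.lift_apply_of φ x
  have hφ1 : ∀ k x, h k x = 1 → ∀ v v' : unitInterval, (w k x).1 = v →
      second (1 / (k + 1)) (w k x) = v' → φ x = e 0 + (e v - e v') := by
    intro k x hx v v' hv hv'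
    simp only [φ]
    rw [wildSum_eq h w hdisj k x (by rw [hx]; exact one_ne_zero)]
    unfold delta
    rw [hx, hv, hv']
  -- a good index
  obtain ⟨k, hk⟩ : ∃ k, ∀ r, ∃ x, h k x = 1 ∧ w k x = r := by
    by_contra hcon
    push Not at hcon
    choose r hr using hcon
    apply hno r
    intro x
    refine ⟨univ, univ_mem, ?_⟩
    have : {i | ({x | h i x = 1 ∧ w i x = r i} ∩ univ).Nonempty} = ∅ := by
      rw [eq_empty_iff_forall_notMem]
      rintro i ⟨y, ⟨hy1, hy2⟩, _⟩
      exact hr i y hy1 hy2
    rw [this]
    exact finite_empty
  have hpair : ∀ v v' : unitInterval, |(v : ℝ) - v'| ≤ 1 / (k + 1) →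
      e 0 + (e v - e v') ∈ F.range := by
    intro v v' hv
    obtain ⟨p, hp1, hp2⟩ := second_exists (s := 1 / ((k:ℝ) + 1)) (by positivity) v v' hv
    obtain ⟨x, hx1, hx2⟩ := hk p
    refine ⟨FreeAbelianGroup.of x, ?_⟩
    rw [hF]
    exact hφ1 k x hx1 v v' (by rw [hx2]; exact hp1) (by rw [hx2]; exact hp2)
  have he0 : e 0 ∈ F.range := by
    have := hpair 0 0 (by simp; positivity)
    simpa using this
  have hdiff : ∀ v v' : unitInterval, |(v : ℝ) - v'| ≤ 1 / (k + 1) → e v - e v' ∈ F.range := by
    intro v v' hv
    have h1 := F.range.sub_mem (hpair v v' hv) he0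
    have h2 : e 0 + (e v - e v') - e 0 = e v - e v' := by abel
    rwa [h2] at h1
  have hall : ∀ n : ℕ, ∀ v : unitInterval, (v : ℝ) ≤ n / (k + 1) → e v ∈ F.range := by
    intro n
    induction n with
    | zero =>
      intro v hv
      have : v = 0 := by
        apply Subtype.ext
        have := v.2.1
        simp only [Nat.cast_zero, zero_div] at hv
        exact le_antisymm hv this
      rw [this]
      exact he0
    | succ n ih =>
      intro v hv
      let v' : unitInterval := ⟨max 0 ((v : ℝ) - 1 / (k + 1)), le_max_left _ _, by
        apply max_le zero_le_one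
        have := v.2.2
        have h2 : (0:ℝ) < 1 / (k + 1) := by positivity
        linarith⟩
      have hv' : (v' : ℝ) ≤ n / (k + 1) := by
        apply max_le (by positivity)
        push_cast at hv
        have : ((n : ℝ) + 1) / (k + 1) = n / (k + 1) + 1 / (k + 1) := by ring
        linarith
      have hd : |(v : ℝ) - v'| ≤ 1 / (k + 1) := by
        have h0 := v.2.1
        have h2 : (0:ℝ) < 1 / (k + 1) := by positivity
        show |(v : ℝ) - max 0 ((v : ℝ) - 1 / (k + 1))| ≤ 1 / (k + 1)
        rcases max_cases (0:ℝ) ((v : ℝ) - 1 / (k + 1)) with ⟨h3, h4⟩ | ⟨h3, h4⟩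
        · rw [h3, sub_zero, abs_of_nonneg h0]; linarith
        · rw [h3]
          have : (v : ℝ) - ((v : ℝ) - 1 / (k + 1)) = 1 / (k + 1) := by ring
          rw [this, abs_of_pos h2]
      have h1 := F.range.add_mem (hdiff v v' hd) (ih v' hv')
      rwa [sub_add_cancel] at h1
  have hFsurj : Function.Surjective F := by
    intro b
    have : b ∈ F.range := by
      induction b using FreeAbelianGroup.induction_on with
      | zero => exact F.range.zero_mem
      | of v =>
        refine hall (k + 1) v ?_
        have h2 : (((k + 1 : ℕ) : ℝ)) / (k + 1) = 1 := by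
          push_cast
          field_simp
        rw [h2]
        exact v.2.2
      | neg v hv => exact F.range.neg_mem hv
      | add b c hb hc => exact F.range.add_mem hb hc
    exact this
  -- continuity
  have hgI := isTopologicalAddGroup_freeTopology unitInterval
  have hφc : @Continuous _ _ _ (freeTopology unitInterval) φ := by
    let t := freeTopology unitInterval
    exact continuous_const.add (continuous_wildSum h w hh h01 hdisj hw)
  have hFc : @Continuous _ _ (freeTopology X) (freeTopology unitInterval) F := by
    let t := freeTopology unitInterval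
    exact continuous_lift φ hφc
  -- openness
  let tX := freeTopology X
  have hgX := isTopologicalAddGroup_freeTopology X
  obtain ⟨h1, h2⟩ := coinduced_group F hFsurj
  have h3 : freeTopology unitInterval ≤ tX.coinduced F := by
    refine freeTopology_le unitInterval ⟨tX.coinduced F, h1⟩ ?_
    let tB : TopologicalSpace (FreeAbelianGroup unitInterval) := tX.coinduced F
    have hgB : IsTopologicalAddGroup (FreeAbelianGroup unitInterval) := h1
    have hψ : Continuous φ := by
      have h4 : φ = F ∘ FreeAbelianGroup.of := by
        funext x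
        exact (hF x).symm
      rw [h4]
      exact (continuous_coinduced_rng (f := F) (t := tX)).comp (continuous_of_freeTopology X)
    -- small differences are small
    have key : ∀ W ∈ 𝓝 (0 : FreeAbelianGroup unitInterval), ∃ n : ℕ, ∀ v v' : unitInterval,
        |(v : ℝ) - v'| ≤ 1 / (n + 1) → e v - e v' ∈ W := by
      intro W hW
      by_contra hcon
      push Not at hcon
      choose v v' hv hvW using hcon
      have hp : ∀ n : ℕ, ∃ p : unitInterval × unitInterval, p.1 = v n ∧
          second (1 / (n + 1)) p = v' n := fun n =>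
        second_exists (by positivity) (v n) (v' n) (hv n)
      choose r hr1 hr2 using hp
      have hnlf := hno r
      apply hnlf
      intro z
      by_cases hz : ∃ m, h m z ≠ 0
      · obtain ⟨m, hm⟩ := hz
        refine ⟨{x | h m x ≠ 0}, (isOpen_ne_fun (hh m) continuous_const).mem_nhds hm, ?_⟩
        refine (finite_singleton m).subset ?_
        rintro i ⟨y, ⟨hy1, _⟩, hy2⟩
        by_contra hcon
        rcases hdisj i m y hcon with h5 | h5
        · rw [h5] at hy1
          exact zero_ne_one hy1
        · exact hy2 h5
      · push Not at hz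
        have hφz : φ z = e 0 := by
          simp only [φ]
          rw [wildSum_eq_zero h w z hz, add_zero]
        have hO : {x | φ x - φ z ∈ W} ∈ 𝓝 z := by
          have h5 : Continuous fun x => φ x - φ z := hψ.sub continuous_const
          apply h5.continuousAt
          show W ∈ 𝓝 (φ z - φ z)
          rw [sub_self]
          exact hW
        refine ⟨{x | φ x - φ z ∈ W}, hO, ?_⟩
        have : {i | ({x | h i x = 1 ∧ w i x = r i} ∩ {x | φ x - φ z ∈ W}).Nonempty} = ∅ := by
          rw [eq_empty_iff_forall_notMem]
          rintro i ⟨y, ⟨hy1, hy2⟩, hy3⟩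
          apply hvW i
          have h6 := hφ1 i y hy1 (v i) (v' i) (by rw [hy2]; exact hr1 i)
            (by rw [hy2]; exact hr2 i)
          have h7 : φ y - φ z ∈ W := hy3
          rw [h6, hφz] at h7
          have h8 : e 0 + (e (v i) - e (v' i)) - e 0 = e (v i) - e (v' i) := by abel
          rwa [h8] at h7
        rw [this]
        exact finite_empty
    show Continuous e
    rw [continuous_iff_continuousAt]
    intro v
    rw [ContinuousAt, tendsto_def]
    intro U hU
    have hW : {g | e v + g ∈ U} ∈ 𝓝 (0 : FreeAbelianGroup unitInterval) := by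
      have h5 : Continuous fun g : FreeAbelianGroup unitInterval => e v + g :=
        continuous_const_add (e v)
      apply h5.continuousAt
      show U ∈ 𝓝 (e v + 0)
      rwa [add_zero]
    obtain ⟨n, hn⟩ := key _ hW
    have hball : Metric.ball v (1 / ((n : ℝ) + 1)) ∈ 𝓝 v := Metric.ball_mem_nhds v (by positivity)
    refine mem_of_superset hball ?_
    intro v' hv'
    have h6 : |(v' : ℝ) - v| ≤ 1 / (n + 1) := by
      rw [Metric.mem_ball, Subtype.dist_eq, Real.dist_eq] at hv'
      exact hv'.le
    have h7 := hn v' v h6
    have h8 : e v + (e v' - e v) ∈ U := h7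
    rwa [add_sub_cancel] at h8
  have hinf : Infinite unitInterval := (Set.Icc_infinite (zero_lt_one (α := ℝ))).to_subtype
  refine ⟨unitInterval, inferInstance, inferInstance, hinf, ?_, F, hFsurj, hFc, ?_⟩
  · refine ⟨TopologicalSpace.countableBasis unitInterval,
      TopologicalSpace.countable_countableBasis unitInterval, ?_⟩
    intro x U hU hxU
    obtain ⟨B, hB, hxB, hBU⟩ := (TopologicalSpace.isBasis_countableBasis
      unitInterval).mem_nhds_iff.mp (hU.mem_nhds hxU)
    exact ⟨B, hB, hxB, hBU⟩
  · intro U hU
    exact h3 _ (h2 U hU)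

end Pool.Agent.MP_5beb1e_gt
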